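import Mathlib
import Pool.Agent.Lib.Chud.CharP

set_option autoImplicit false

/-!
# Unisolvent point sets in affine space

`Uni t S e`: `e` is the basis of the polynomials of degree at most `t` dual to the points `S i`.
-/

namespace Pool.Agent.Lib.StarN

open MvPolynomial Pool.Agent.Lib.Chud

section

variable {σ : Type*} {ι : Type*} [Fintype ι] [DecidableEq ι] {k : Type*} [CommRing k]

/-- `e` is the dual basis of the points `S`, which are unisolvent in degree `t` -/
structure Uni (t : ℕ) (S : ι → σ → k) (e : ι → MvPolynomial σ k) : Prop where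
  deg : ∀ i, (e i).totalDegree ≤ t
  dual : ∀ i j, eval (S j) (e i) = if i = j then 1 else 0
  mono : ∀ a : σ →₀ ℕ, a.degree ≤ t →
    monomial a (1 : k) = ∑ i, C (eval (S i) (monomial a (1 : k))) * e i

/-- the points on the line through `S i` and `S j` -/
def ln (S : ι → σ → k) (i j : ι) : Set ι := {l | ∃ c : k, S l = S i + c • (S j - S i)}

/-- the line through `S i` and `S j` contains `t + 1` of the points -/
def Full (t : ℕ) (S : ι → σ → k) (i j : ι) : Prop := i ≠ j ∧ (ln S i j).ncard = t + 1

/-- the differential of `e i` at `S j` is nonzero -/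
def Adj (S : ι → σ → k) (e : ι → MvPolynomial σ k) (i j : ι) : Prop :=
  ∃ l, eval (S j) (pderiv l (e i)) ≠ 0

theorem Uni.expand {t : ℕ} {S : ι → σ → k} {e : ι → MvPolynomial σ k} (U : Uni t S e)
    (f : MvPolynomial σ k) (hf : f.totalDegree ≤ t) : f = ∑ i, C (eval (S i) f) * e i := by
  have h : ∀ a ∈ f.support, monomial a (coeff a f) =
      ∑ i, C (eval (S i) (monomial a (coeff a f))) * e i := by
    intro a ha
    have h1 : monomial a (coeff a f) = C (coeff a f) * monomial a 1 := by
      rw [C_mul_monomial, mul_one]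
    have h2 : a.degree ≤ t := le_trans (le_totalDegree ha) hf
    have h3 := congrArg (fun g => C (coeff a f) * g) (U.mono a h2)
    simp only [Finset.mul_sum] at h3
    rw [h1]
    refine h3.trans ?_
    apply Finset.sum_congr rfl
    intro i _
    rw [map_mul, eval_C, C_mul, mul_assoc]
  conv_lhs => rw [f.as_sum, Finset.sum_congr rfl h]
  rw [Finset.sum_comm]
  apply Finset.sum_congr rfl
  intro i _
  rw [← Finset.sum_mul, ← map_sum]
  congr 2
  conv_rhs => rw [f.as_sum, map_sum]

theorem Uni.eq_zero {t : ℕ} {S : ι → σ → k} {e : ι → MvPolynomial σ k} (U : Uni t S e)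
    {f : MvPolynomial σ k} (hf : f.totalDegree ≤ t) (h : ∀ i, eval (S i) f = 0) : f = 0 := by
  rw [U.expand f hf]
  apply Finset.sum_eq_zero
  intro i _
  rw [h, C_0, zero_mul]

theorem Uni.injective [Nontrivial k] {t : ℕ} {S : ι → σ → k} {e : ι → MvPolynomial σ k}
    (U : Uni t S e) : Function.Injective S := by
  intro i j h
  by_contra hne
  have h1 := U.dual i i
  have h2 := U.dual i j
  rw [h] at h1
  rw [h1, if_pos rfl, if_neg hne] at h2
  exact one_ne_zero h2

theorem Uni.map {K : Type*} [CommRing K] (φ : k →+* K) {t : ℕ} {S : ι → σ → k}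
    {e : ι → MvPolynomial σ k} (U : Uni t S e) :
    Uni t (fun i l => φ (S i l)) (fun i => map φ (e i)) := by
  have hev : ∀ (i : ι) (f : MvPolynomial σ k),
      eval (fun l => φ (S i l)) (MvPolynomial.map φ f) = φ (eval (S i) f) := by
    intro i f
    have h := eval₂_comp φ (S i) f
    rw [eval_map]
    rw [h]
    rfl
  refine ⟨?_, ?_, ?_⟩
  · intro i
    refine le_trans ?_ (U.deg i)
    rw [totalDegree, totalDegree]
    exact Finset.sup_mono (support_map_subset φ _)
  · intro i j
    rw [hev, U.dual]
    split_ifs <;> simp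
  · intro a ha
    have h1 := congrArg (MvPolynomial.map φ) (U.mono a ha)
    rw [map_sum] at h1
    have h2 : MvPolynomial.map φ (monomial a (1 : k)) = monomial a (1 : K) := by
      rw [map_monomial, map_one]
    rw [h2] at h1
    refine h1.trans ?_
    apply Finset.sum_congr rfl
    intro i _
    rw [map_mul, map_C, ← hev, h2]

end

end Pool.Agent.Lib.StarN
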