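import Mathlib
import Pool.Agent.Lib.StarN.Defs

set_option autoImplicit false

/-!
# Module Conn: connectedness and spanning

`Adj S e i j`: the differential of `e i` at `S j` is nonzero.

PROOF of `conn`. Let `V` be the set of polynomials `f` with `totalDegree f <= t` vanishing at all
`S j`, `j ∉ A`. For `f ∈ V`, `f = ∑_{i ∈ A} C (eval (S i) f) * e i` (U.expand), hence for `j ∉ A`
`pderiv l f` vanishes at `S j` (contrapositive of `h`), so `pderiv l f ∈ V`. Take `f ∈ V`, `f ≠ 0`
(for example `e i`, `i ∈ A`), of minimal total degree. All `pderiv l f` are `0` (otherwise smaller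
degree: `Chud.totalDegree_pderiv`). Characteristic `0`: `f` is constant. Characteristic `p`:
`f = g ^ p` (`Chud.exists_pow_of_pderiv'`), `g ∈ V`, degree smaller unless `f` is constant. So `f`
is a nonzero constant, which vanishes at `S j` for `j ∉ A`; so there is no such `j`.

PROOF of `span_adj`. If the span is not `⊤` there is a nonzero functional `φ` vanishing on it
(`Submodule.exists_le_ker_of_lt_top` or `Submodule.exists_dual_map_eq_bot_of_lt_top`). Put
`h = ∑ l, C (φ (Pi.single l 1)) * (X l - C (S i l))`, so `eval x h = φ (x - S i)`. Then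
`h * pderiv l (e i)` has degree `<= t` (if `pderiv l (e i) ≠ 0` its degree is `< deg (e i) <= t`) and
vanishes at all `S j`: if `Adj S e i j` then `φ (S j - S i) = 0`, otherwise `pderiv l (e i)` vanishes at
`S j`. So it is zero (`U.eq_zero`), so `pderiv l (e i) = 0` for all `l` and `A = {i}` satisfies the
hypothesis of `conn`, contradicting `j ≠ i`.
-/

namespace Pool.Agent.Lib.StarN

open MvPolynomial Pool.Agent.Lib.Chud

variable {k : Type*} [Field k] [IsAlgClosed k] {σ : Type*} [Fintype σ] {ι : Type*} [Fintype ι]
  [DecidableEq ι] {t : ℕ} {S : ι → σ → k} {e : ι → MvPolynomial σ k}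

theorem const_aux (U : Uni t S e) (A : Set ι)
    (h : ∀ i ∈ A, ∀ j, Adj S e i j → j ∈ A) (n : ℕ) : ∀ f : MvPolynomial σ k, f ≠ 0 →
      f.totalDegree ≤ n → f.totalDegree ≤ t → (∀ j, j ∉ A → eval (S j) f = 0) →
      ∃ c : k, c ≠ 0 ∧ ∀ j, j ∉ A → eval (S j) (C c : MvPolynomial σ k) = 0 := by
  induction n with
  | zero =>
    intro f hf hn ht hv
    rw [Nat.le_zero, totalDegree_eq_zero_iff_eq_C] at hn
    refine ⟨coeff 0 f, ?_, ?_⟩
    · intro h0
      apply hf
      rw [hn, h0, C_0]
    · intro j hj
      rw [← hn]
      exact hv j hj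
  | succ n ih =>
    intro f hf hn ht hv
    by_cases hall : ∀ l, pderiv l f = 0
    · by_cases hd : f.totalDegree = 0
      · exact ih f hf (by omega) ht hv
      obtain ⟨p, hp⟩ := CharP.exists k
      rcases CharP.char_is_prime_or_zero k p with hprime | h0
      · have : Fact p.Prime := ⟨hprime⟩
        obtain ⟨g, hg⟩ := exists_pow_of_pderiv' (p := p) hall
        have hg0 : g ≠ 0 := by
          rintro rfl
          rw [zero_pow hprime.ne_zero] at hg
          exact hf hg
        have hdeg : f.totalDegree = p * g.totalDegree := by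
          rw [hg, totalDegree_pow_dom]
        have h2 := hprime.two_le
        have hgd : g.totalDegree ≤ n := by
          have h3 : 2 * g.totalDegree ≤ p * g.totalDegree := Nat.mul_le_mul_right _ h2
          omega
        have hgt : g.totalDegree ≤ t := by
          have h3 : 2 * g.totalDegree ≤ p * g.totalDegree := Nat.mul_le_mul_right _ h2
          omega
        refine ih g hg0 hgd hgt ?_
        intro j hj
        have h4 := hv j hj
        rw [hg, map_pow] at h4
        exact pow_eq_zero_iff hprime.ne_zero |>.1 h4
      · subst h0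
        have : CharZero k := CharP.charP_to_charZero k
        exfalso
        apply hd
        obtain ⟨γ, hγ, hγd⟩ := exists_degree_eq hf
        have h1 : γ = 0 := by
          ext l
          have := Pool.Agent.Lib.P5c592f.support_dvd_of_pderiv hall γ hγ l
          simpa using this
        rw [hγd, h1]
        simp
    · push Not at hall
      obtain ⟨l, hl⟩ := hall
      have h1 := totalDegree_pderiv hl
      refine ih (pderiv l f) hl (by omega) (by omega) ?_
      intro j hj
      rw [U.expand f ht, map_sum, map_sum]
      apply Finset.sum_eq_zero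
      intro i _
      rw [pderiv_C_mul, map_mul, eval_C]
      by_cases hi : i ∈ A
      · have h3 : eval (S j) (pderiv l (e i)) = 0 := by
          by_contra hne
          exact hj (h i hi j ⟨l, hne⟩)
        rw [h3, mul_zero]
      · rw [hv i hi, zero_mul]

theorem conn (U : Uni t S e) (A : Set ι) (hA : A.Nonempty)
    (h : ∀ i ∈ A, ∀ j, Adj S e i j → j ∈ A) : ∀ i, i ∈ A := by
  obtain ⟨i0, hi0⟩ := hA
  have he : e i0 ≠ 0 := by
    intro h0
    have h1 := U.dual i0 i0
    rw [h0, map_zero, if_pos rfl] at h1
    exact zero_ne_one h1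
  obtain ⟨c, hc, hc'⟩ := const_aux U A h (e i0).totalDegree (e i0) he le_rfl (U.deg i0) (by
    intro j hj
    rw [U.dual, if_neg]
    rintro rfl
    exact hj hi0)
  intro i
  by_contra hi
  have := hc' i hi
  rw [eval_C] at this
  exact hc this

theorem span_adj (U : Uni t S e) {i j : ι} (hij : j ≠ i) :
    Submodule.span k {v : σ → k | ∃ l, Adj S e i l ∧ v = S l - S i} = ⊤ := by
  classical
  by_contra hne
  obtain ⟨φ, hφ, hφ'⟩ := Submodule.exists_le_ker_of_lt_top _ (lt_top_iff_ne_top.2 hne)
  have hφ0 : ∀ l, Adj S e i l → φ (S l - S i) = 0 := by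
    intro l hl
    exact hφ' (Submodule.subset_span ⟨l, hl, rfl⟩)
  set q : MvPolynomial σ k := ∑ l, C (φ (Pi.single l 1)) * (X l - C (S i l)) with hq
  have heval : ∀ x : σ → k, eval x q = φ (x - S i) := by
    intro x
    have hx : x - S i = ∑ l, (x l - S i l) • (Pi.single l (1 : k) : σ → k) := by
      ext m
      simp [Finset.sum_apply, Pi.single_apply]
    rw [hx, map_sum φ, hq, map_sum]
    apply Finset.sum_congr rfl
    intro l _
    rw [map_smul, smul_eq_mul, map_mul, eval_C, map_sub, eval_X, eval_C, mul_comm]
  have hqne : q ≠ 0 := by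
    intro h0
    apply hφ
    apply LinearMap.ext
    intro v
    have h1 := heval (v + S i)
    rw [h0, map_zero, add_sub_cancel_right] at h1
    rw [← h1, LinearMap.zero_apply]
  have hqdeg : q.totalDegree ≤ 1 := by
    rw [hq]
    refine totalDegree_finsetSum_le ?_
    intro l _
    refine (totalDegree_mul _ _).trans ?_
    rw [totalDegree_C, zero_add]
    refine (totalDegree_sub _ _).trans ?_
    rw [totalDegree_C, totalDegree_X]
    simp
  have hall : ∀ l, pderiv l (e i) = 0 := by
    intro l
    by_contra hl
    have h1 := totalDegree_pderiv hl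
    have h2 : q * pderiv l (e i) = 0 := by
      apply U.eq_zero
      · refine (totalDegree_mul _ _).trans ?_
        have h3 := U.deg i
        omega
      · intro m
        rw [map_mul]
        by_cases hm : Adj S e i m
        · rw [heval, hφ0 m hm, zero_mul]
        · have h3 : eval (S m) (pderiv l (e i)) = 0 := by
            by_contra hne'
            exact hm ⟨l, hne'⟩
          rw [h3, mul_zero]
    rcases mul_eq_zero.1 h2 with h3 | h3
    · exact hqne h3
    · exact hl h3
  have hfin := conn U {i} ⟨i, rfl⟩ (by
    intro i' hi' j' hadj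
    rw [Set.mem_singleton_iff] at hi'
    subst hi'
    obtain ⟨l, hl⟩ := hadj
    rw [hall l, map_zero] at hl
    exact absurd rfl hl) j
  exact hij hfin

end Pool.Agent.Lib.StarN
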