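import Mathlib
import Pool.Agent.Lib.StarN.Defs

set_option autoImplicit false
set_option linter.unusedSectionVars false
set_option linter.unusedVariables false

/-!
# Module Line: restriction of the dual basis to lines

`restr P v f : Polynomial k` is `f (P + w v)` as a polynomial in `w`.
Facts: `natDegree (restr P v f) <= totalDegree f`; evaluation; the coefficient of `w` (derivative at `0`)
is `∑ l, v l * eval P (pderiv l f)`; `ln S i j` is symmetric in `i, j`, `i, j ∈ ln S i j`, and
`ln S i l = ln S i j` for `l ∈ ln S i j`, `l ≠ i`; so `Full` is symmetric and passes to `l`.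
For `i ≠ j` the points `l ∈ ln S i j` correspond to pairwise different parameters `c_l`
(`S` is injective, `U.injective`).

`deriv_zero`: `restr (S i) (S j - S i) (e l)` has degree `<= t` and vanishes at the `t + 1` parameters, so it
is `0`, in particular its derivative at `0` (the point `S i`) and at `1` (the point `S j`).
`deriv_ne`: `restr (S i) (S j - S i) (e j)` has degree `<= t`, value `1` at `w = 1`, and zeros at the `t`
parameters of the points of the line other than `j`; one of them is `w = 0`; if the derivative at `0` were `0`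
then `w^2 * prod (w - c_l)` over the other `t - 1` points would divide it: degree `t + 1`, contradiction.
`triangle`: put `v = S j - S i`, `g = ∑ l, C (v l) * pderiv l (e j)`, of degree `<= t - 1`;
`restr (S i) (S l - S i) g` is nonzero at `0` by `deriv_ne`, so it cannot vanish at the `t` points of `ln S i l`
other than `i`; at a point `m` where it does not vanish, `Adj S e j m`, so `Full t S j m` by `hfull`
(`m ≠ j` as `j ∉ ln S i l`, which follows from `l ∉ ln S i j`).
-/

namespace Pool.Agent.Lib.StarN

open MvPolynomial Pool.Agent.Lib.Chud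

variable {k : Type*} [Field k] {σ : Type*} [Fintype σ] {ι : Type*} [Fintype ι]
  [DecidableEq ι] {t : ℕ} {S : ι → σ → k} {e : ι → MvPolynomial σ k}

theorem ln_left (S : ι → σ → k) (i j : ι) : i ∈ ln S i j := ⟨0, by simp⟩

theorem ln_right (S : ι → σ → k) (i j : ι) : j ∈ ln S i j := ⟨1, by simp⟩

theorem ln_symm_le (S : ι → σ → k) (i j : ι) : ln S i j ⊆ ln S j i := by
  rintro l ⟨c, hc⟩
  refine ⟨1 - c, ?_⟩
  rw [hc]
  funext m
  simp only [Pi.add_apply, Pi.smul_apply, Pi.sub_apply, smul_eq_mul]
  ring

theorem ln_symm (S : ι → σ → k) (i j : ι) : ln S i j = ln S j i :=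
  Set.Subset.antisymm (ln_symm_le S i j) (ln_symm_le S j i)

theorem ln_eq {S : ι → σ → k} (hS : Function.Injective S) {i j l : ι} (hl : l ∈ ln S i j)
    (hli : l ≠ i) : ln S i l = ln S i j := by
  obtain ⟨c, hc⟩ := hl
  have hc0 : c ≠ 0 := by
    rintro rfl
    rw [zero_smul, add_zero] at hc
    exact hli (hS hc)
  have hv : S l - S i = c • (S j - S i) := by
    rw [hc, add_sub_cancel_left]
  ext m
  constructor
  · rintro ⟨d, hd⟩
    refine ⟨d * c, ?_⟩
    rw [hd, hv, smul_smul]
  · rintro ⟨d, hd⟩
    refine ⟨d * c⁻¹, ?_⟩
    rw [hd, hv, smul_smul, mul_assoc, inv_mul_cancel₀ hc0, mul_one]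

theorem Full.symm {i j : ι} (h : Full t S i j) : Full t S j i :=
  ⟨h.1.symm, by rw [← ln_symm]; exact h.2⟩

theorem Full.of_mem (hS : Function.Injective S) {i j l : ι} (h : Full t S i j)
    (hl : l ∈ ln S i j) (hli : l ≠ i) : Full t S i l :=
  ⟨hli.symm, by rw [ln_eq hS hl hli]; exact h.2⟩

/-- restriction of a polynomial to the line through `P` in the direction `v` -/
noncomputable def restr (P v : σ → k) : MvPolynomial σ k →ₐ[k] Polynomial k :=
  aeval (fun l => Polynomial.C (P l) + Polynomial.C (v l) * Polynomial.X)

theorem natDegree_restr_le (P v : σ → k) (f : MvPolynomial σ k) :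
    (restr P v f).natDegree ≤ f.totalDegree := by
  have h := MvPolynomial.aeval_natDegree_le f (le_refl f.totalDegree)
    (fun l => Polynomial.C (P l) + Polynomial.C (v l) * Polynomial.X) (n := 1) (by
      intro l
      refine (Polynomial.natDegree_add_le _ _).trans (max_le ?_ ?_)
      · rw [Polynomial.natDegree_C]; exact Nat.zero_le _
      · exact (Polynomial.natDegree_C_mul_le _ _).trans Polynomial.natDegree_X_le)
  rw [mul_one] at h
  exact h

theorem eval_restr (P v : σ → k) (f : MvPolynomial σ k) (w : k) :
    (restr P v f).eval w = eval (P + w • v) f := by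
  induction f using MvPolynomial.induction_on with
  | C a => simp [restr]
  | add p q hp hq => rw [map_add, Polynomial.eval_add, hp, hq, map_add]
  | mul_X g i hg =>
    rw [map_mul, Polynomial.eval_mul, hg, map_mul]
    congr 1
    simp only [restr, aeval_X, Polynomial.eval_add, Polynomial.eval_C, Polynomial.eval_mul,
      Polynomial.eval_X, eval_X, Pi.add_apply, Pi.smul_apply, smul_eq_mul]
    ring

theorem derivative_restr (P v : σ → k) (f : MvPolynomial σ k) :
    Polynomial.derivative (restr P v f) =
      ∑ l, Polynomial.C (v l) * restr P v (pderiv l f) := by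
  classical
  induction f using MvPolynomial.induction_on with
  | C a => simp [restr]
  | add p q hp hq =>
    simp only [map_add, hp, hq, mul_add, Finset.sum_add_distrib]
  | mul_X g i hg =>
    rw [map_mul, Polynomial.derivative_mul, hg]
    have h1 : ∀ l, Polynomial.C (v l) * restr P v (pderiv l (g * X i)) =
        Polynomial.C (v l) * restr P v (pderiv l g) * restr P v (X i) +
          (if i = l then Polynomial.C (v l) * restr P v g else 0) := by
      intro l
      rw [Derivation.leibniz, map_add, smul_eq_mul, smul_eq_mul, map_mul, map_mul]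
      by_cases h : i = l
      · subst h
        rw [if_pos rfl, pderiv_X_self, map_one]
        ring
      · rw [if_neg h, pderiv_X_of_ne h, map_zero]
        ring
    rw [Finset.sum_congr rfl (fun l _ => h1 l), Finset.sum_add_distrib, Finset.sum_ite_eq,
      if_pos (Finset.mem_univ _), ← Finset.sum_mul]
    congr 1
    have h2 : Polynomial.derivative (restr P v (X i)) = Polynomial.C (v i) := by
      simp [restr]
    rw [h2, mul_comm]

theorem poly_zero (hS : Function.Injective S) {i j : ι} {T : Finset ι}
    (hT : ∀ l ∈ T, l ∈ ln S i j) {p : Polynomial k} (hp : p.natDegree < T.card)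
    (h0 : ∀ l ∈ T, ∀ c : k, S l = S i + c • (S j - S i) → p.eval c = 0) : p = 0 := by
  classical
  choose! c hc using hT
  have hinj : Set.InjOn c (T : Set ι) := by
    intro a ha b hb hab
    apply hS
    rw [hc a ha, hc b hb, hab]
  apply Polynomial.eq_zero_of_natDegree_lt_card_of_eval_eq_zero' p (T.image c)
  · intro w hw
    obtain ⟨l, hl, rfl⟩ := Finset.mem_image.1 hw
    exact h0 l hl _ (hc l hl)
  · rwa [Finset.card_image_of_injOn hinj]

theorem restr_zero (hS : Function.Injective S) {i j : ι} {T : Finset ι}
    (hT : ∀ l ∈ T, l ∈ ln S i j) {f : MvPolynomial σ k} (hf : f.totalDegree < T.card)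
    (h0 : ∀ l ∈ T, eval (S l) f = 0) : restr (S i) (S j - S i) f = 0 := by
  apply poly_zero hS hT (lt_of_le_of_lt (natDegree_restr_le _ _ _) hf)
  intro l hl c hc
  rw [eval_restr, ← hc]
  exact h0 l hl

/-- at most `t + 1` points on a line -/
theorem ncard_ln_le (U : Uni t S e) {i j : ι} (hij : i ≠ j) : (ln S i j).ncard ≤ t + 1 := by
  classical
  by_contra hcon
  push Not at hcon
  have hS := U.injective
  have hcard : (ln S i j).toFinite.toFinset.card = (ln S i j).ncard :=
    (Set.ncard_eq_toFinset_card _ _).symm
  have hj : j ∈ (ln S i j).toFinite.toFinset := by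
    rw [Set.Finite.mem_toFinset]
    exact ln_right S i j
  have h := restr_zero (i := i) (j := j) (T := ((ln S i j).toFinite.toFinset).erase j)
    (f := e j) hS (by
      intro l hl
      have := Finset.mem_of_mem_erase hl
      rwa [Set.Finite.mem_toFinset] at this) (by
      rw [Finset.card_erase_of_mem hj, hcard]
      have := U.deg j
      omega) (by
      intro l hl
      rw [U.dual, if_neg (Finset.ne_of_mem_erase hl).symm])
  have h1 := eval_restr (S i) (S j - S i) (e j) 1
  rw [h, one_smul, add_sub_cancel, U.dual, if_pos rfl, Polynomial.eval_zero] at h1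
  exact zero_ne_one h1

theorem deriv_zero_eval (P v : σ → k) (f : MvPolynomial σ k) :
    (Polynomial.derivative (restr P v f)).eval 0 = ∑ m, v m * eval P (pderiv m f) := by
  rw [derivative_restr, Polynomial.eval_finsetSum]
  apply Finset.sum_congr rfl
  intro m _
  rw [Polynomial.eval_mul, Polynomial.eval_C, eval_restr, zero_smul, add_zero]

theorem deriv_zero (U : Uni t S e) {i j l : ι} (h : Full t S i j) (hl : l ∉ ln S i j) :
    ∑ m, (S j m - S i m) * eval (S i) (pderiv m (e l)) = 0 := by
  classical
  have hS := U.injective
  have hcard : (ln S i j).toFinite.toFinset.card = (ln S i j).ncard :=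
    (Set.ncard_eq_toFinset_card _ _).symm
  have h0 := restr_zero (i := i) (j := j) (T := (ln S i j).toFinite.toFinset)
    (f := e l) hS (by
      intro l hl
      rwa [Set.Finite.mem_toFinset] at hl) (by
      rw [hcard, h.2]
      have := U.deg l
      omega) (by
      intro m hm
      rw [Set.Finite.mem_toFinset] at hm
      rw [U.dual, if_neg]
      rintro rfl
      exact hl hm)
  have h1 := deriv_zero_eval (S i) (S j - S i) (e l)
  rw [h0, Polynomial.derivative_zero, Polynomial.eval_zero] at h1
  exact h1.symm

theorem deriv_ne (U : Uni t S e) {i j : ι} (h : Full t S i j) :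
    ∑ m, (S j m - S i m) * eval (S i) (pderiv m (e j)) ≠ 0 := by
  classical
  intro hcon
  have hS := U.injective
  have hcard : (ln S i j).toFinite.toFinset.card = (ln S i j).ncard :=
    (Set.ncard_eq_toFinset_card _ _).symm
  have hj : j ∈ (ln S i j).toFinite.toFinset := by
    rw [Set.Finite.mem_toFinset]
    exact ln_right S i j
  have hi : i ∈ (ln S i j).toFinite.toFinset := by
    rw [Set.Finite.mem_toFinset]
    exact ln_left S i j
  have ht : 1 ≤ t := by
    have h2 : 1 < ((ln S i j).toFinite.toFinset).card :=
      Finset.one_lt_card.2 ⟨i, hi, j, hj, h.1⟩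
    rw [hcard, h.2] at h2
    omega
  set p := restr (S i) (S j - S i) (e j) with hp
  have hp0 : p.coeff 0 = 0 := by
    rw [Polynomial.coeff_zero_eq_eval_zero, hp, eval_restr, zero_smul, add_zero, U.dual,
      if_neg h.1.symm]
  have hp1 : p.coeff 1 = 0 := by
    have h1 := deriv_zero_eval (S i) (S j - S i) (e j)
    simp only [Pi.sub_apply] at h1
    rw [hcon, ← hp, ← Polynomial.coeff_zero_eq_eval_zero, Polynomial.coeff_derivative] at h1
    simpa using h1
  have hpe : p.eval 1 = 1 := by
    rw [hp, eval_restr, one_smul, add_sub_cancel, U.dual, if_pos rfl]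
  have hpq : Polynomial.divX p * Polynomial.X = p := by
    have := Polynomial.divX_mul_X_add p
    rwa [hp0, Polynomial.C_0, add_zero] at this
  have hq0 : (Polynomial.divX p).eval 0 = 0 := by
    rw [← Polynomial.coeff_zero_eq_eval_zero, Polynomial.coeff_divX, hp1]
  have hq : Polynomial.divX p = 0 := by
    apply poly_zero (i := i) (j := j) (T := ((ln S i j).toFinite.toFinset).erase j) hS
    · intro l hl
      have := Finset.mem_of_mem_erase hl
      rwa [Set.Finite.mem_toFinset] at this
    · rw [Finset.card_erase_of_mem hj, hcard, h.2, Polynomial.natDegree_divX_eq_natDegree_tsub_one]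
      have h3 : p.natDegree ≤ t := (natDegree_restr_le _ _ _).trans (U.deg j)
      omega
    · intro l hl c hc
      by_cases hc0 : c = 0
      · rw [hc0, hq0]
      · have h4 : p.eval c = 0 := by
          rw [hp, eval_restr, ← hc, U.dual, if_neg (Finset.ne_of_mem_erase hl).symm]
        rw [← hpq, Polynomial.eval_mul, Polynomial.eval_X] at h4
        exact (mul_eq_zero.1 h4).resolve_right hc0
  rw [← hpq, hq, zero_mul, Polynomial.eval_zero] at hpe
  exact zero_ne_one hpe

theorem adj_of_full (U : Uni t S e) {i j : ι} (h : Full t S i j) : Adj S e j i := by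
  by_contra hcon
  have h1 : ∀ l, eval (S i) (pderiv l (e j)) = 0 := by
    intro l
    by_contra h2
    exact hcon ⟨l, h2⟩
  apply deriv_ne U h
  apply Finset.sum_eq_zero
  intro m _
  rw [h1, mul_zero]

theorem triangle (ht : 1 ≤ t) (U : Uni t S e)
    (hfull : ∀ i j, i ≠ j → Adj S e i j → Full t S i j) {i j l : ι}
    (hj : Full t S i j) (hl : Full t S i l) (hne : l ∉ ln S i j) :
    ∃ m ∈ ln S i l, m ≠ i ∧ Full t S j m := by
  classical
  have hS := U.injective
  have hcard : (ln S i l).toFinite.toFinset.card = (ln S i l).ncard :=
    (Set.ncard_eq_toFinset_card _ _).symm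
  have hi : i ∈ (ln S i l).toFinite.toFinset := by
    rw [Set.Finite.mem_toFinset]
    exact ln_left S i l
  set g : MvPolynomial σ k := ∑ m, C (S j m - S i m) * pderiv m (e j) with hg
  have hgdeg : g.totalDegree ≤ t - 1 := by
    apply MvPolynomial.totalDegree_finsetSum_le
    intro m _
    by_cases h0 : pderiv m (e j) = 0
    · rw [h0, mul_zero, totalDegree_zero]
      exact Nat.zero_le _
    · have h1 := Pool.Agent.Lib.Chud.totalDegree_pderiv h0
      have h2 := U.deg j
      have h3 := totalDegree_mul (C (S j m - S i m)) (pderiv m (e j))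
      rw [totalDegree_C] at h3
      omega
  have hgi : eval (S i) g ≠ 0 := by
    rw [hg, map_sum]
    simp only [map_mul, eval_C]
    exact deriv_ne U hj
  by_contra hcon
  push Not at hcon
  apply hgi
  have h0 := restr_zero (i := i) (j := l) (T := ((ln S i l).toFinite.toFinset).erase i)
    (f := g) hS (by
      intro m hm
      have := Finset.mem_of_mem_erase hm
      rwa [Set.Finite.mem_toFinset] at this) (by
      rw [Finset.card_erase_of_mem hi, hcard, hl.2]
      omega) (by
      intro m hm
      have hmi := Finset.ne_of_mem_erase hm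
      have hml := Finset.mem_of_mem_erase hm
      rw [Set.Finite.mem_toFinset] at hml
      by_contra h5
      apply hcon m hml hmi
      apply hfull
      · rintro rfl
        apply hne
        rw [ln_eq hS hml hmi]
        exact ln_right S i l
      · by_contra h6
        apply h5
        rw [hg, map_sum]
        apply Finset.sum_eq_zero
        intro n _
        rw [map_mul]
        have : eval (S m) (pderiv n (e j)) = 0 := by
          by_contra h7
          exact h6 ⟨n, h7⟩
        rw [this, mul_zero])
  have h1 := eval_restr (S i) (S l - S i) g 0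
  rw [h0, zero_smul, add_zero, Polynomial.eval_zero] at h1
  exact h1.symm

end Pool.Agent.Lib.StarN
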