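import Mathlib
import Pool.Agent.Lib.StarN.Defs

set_option autoImplicit false

/-!
# Trace coefficients in characteristic `p`

`th q P f` is the coefficient of `z^(q-1,...,q-1)` of `f` at the point `P`.
-/

namespace Pool.Agent.Lib.StarN

open MvPolynomial Pool.Agent.Lib.Chud

section

variable {σ : Type*} [Fintype σ] {k : Type*} [Field k]

/-- the exponent `(q - 1, ..., q - 1)` -/
noncomputable def fe (σ : Type*) [Fintype σ] (q : ℕ) : σ →₀ ℕ :=
  Finsupp.equivFunOnFinite.symm (fun _ => q - 1)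

theorem fe_apply (q : ℕ) (i : σ) : fe σ q i = q - 1 := rfl

theorem fe_lt {q : ℕ} (hq : 0 < q) (i : σ) : fe σ q i < q := by
  rw [fe_apply]; omega

theorem fe_degree (q : ℕ) : (fe σ q).degree = Fintype.card σ * (q - 1) := by
  rw [Finsupp.degree_eq_sum]
  simp [fe_apply]

/-- the coefficient of `z^(q-1,...,q-1)` at `P` -/
noncomputable def th (q : ℕ) (P : σ → k) (f : MvPolynomial σ k) : k := coeff (fe σ q) (tau P f)

theorem th_add (q : ℕ) (P : σ → k) (f g : MvPolynomial σ k) :
    th q P (f + g) = th q P f + th q P g := by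
  rw [th, map_add, coeff_add]; rfl

theorem th_zero_of_ord {q : ℕ} {P : σ → k} {f : MvPolynomial σ k} {M : ℕ}
    (h : OrdGE P M f) (hM : Fintype.card σ * (q - 1) < M) : th q P f = 0 := by
  apply h
  rw [fe_degree]; exact hM

theorem _root_.Pool.Agent.Lib.Chud.OrdGE.add {P : σ → k} {m : ℕ} {f g : MvPolynomial σ k} (hf : OrdGE P m f)
    (hg : OrdGE P m g) : OrdGE P m (f + g) := by
  intro γ hγ
  rw [map_add, coeff_add, hf γ hγ, hg γ hγ, add_zero]

theorem _root_.Pool.Agent.Lib.Chud.OrdGE.neg {P : σ → k} {m : ℕ} {f : MvPolynomial σ k} (hf : OrdGE P m f) :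
    OrdGE P m (-f) := by
  intro γ hγ
  rw [map_neg, coeff_neg, hf γ hγ, neg_zero]

theorem coeff_zero_tau (P : σ → k) (f : MvPolynomial σ k) : coeff 0 (tau P f) = eval P f := by
  have h3 : ((MvPolynomial.constantCoeff (R := k) (σ := σ)).comp
      (tau P : MvPolynomial σ k →+* MvPolynomial σ k)) = MvPolynomial.eval P := by
    apply MvPolynomial.ringHom_ext
    · intro a; simp
    · intro l; simp
  exact congrArg (fun g => g f) h3

theorem ordGE_one_iff (P : σ → k) (f : MvPolynomial σ k) : OrdGE P 1 f ↔ eval P f = 0 := by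
  constructor
  · intro h
    rw [← coeff_zero_tau]
    exact h 0 (by simp)
  · intro h γ hγ
    have h0 : γ = 0 := (Finsupp.degree_eq_zero_iff γ).1 (by omega)
    rw [h0, coeff_zero_tau, h]

theorem th_mul {q : ℕ} {P : σ → k} {f : MvPolynomial σ k}
    (h : OrdGE P (Fintype.card σ * (q - 1)) f) (g : MvPolynomial σ k) :
    th q P (g * f) = eval P g * th q P f := by
  have h1 : g * f = C (eval P g) * f + (g - C (eval P g)) * f := by ring
  have h2 : OrdGE P (1 + Fintype.card σ * (q - 1)) ((g - C (eval P g)) * f) := by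
    apply OrdGE.mul _ h
    rw [ordGE_one_iff]
    simp
  rw [h1, th_add, th_zero_of_ord h2 (by omega), add_zero, th, map_mul, tau_C, coeff_C_mul]
  rfl

theorem _root_.Pool.Agent.Lib.Chud.OrdGE.C_mul {P : σ → k} {m : ℕ} {f : MvPolynomial σ k} (hf : OrdGE P m f) (g : MvPolynomial σ k) :
    OrdGE P m (g * f) := by
  have := (OrdGE.zero (P := P) (f := g)).mul hf
  rwa [zero_add] at this

theorem _root_.Pool.Agent.Lib.Chud.OrdGE.finset_prod {P : σ → k} {α : Type*} (s : Finset α) (f : α → MvPolynomial σ k)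
    (m : α → ℕ) (h : ∀ a ∈ s, OrdGE P (m a) (f a)) : OrdGE P (∑ a ∈ s, m a) (∏ a ∈ s, f a) := by
  classical
  induction s using Finset.induction_on with
  | empty => simpa using OrdGE.zero
  | insert a s ha ih =>
    rw [Finset.sum_insert ha, Finset.prod_insert ha]
    exact (h a (Finset.mem_insert_self _ _)).mul
      (ih (fun b hb => h b (Finset.mem_insert_of_mem hb)))

theorem totalDegree_finset_prod_le {α : Type*} (s : Finset α) (f : α → MvPolynomial σ k)
    (m : α → ℕ) (h : ∀ a ∈ s, (f a).totalDegree ≤ m a) :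
    (∏ a ∈ s, f a).totalDegree ≤ ∑ a ∈ s, m a :=
  (totalDegree_finsetProd _ _).trans (Finset.sum_le_sum h)

end

section CharP

variable {σ : Type*} [Fintype σ] {k : Type*} [Field k] {p : ℕ} [Fact p.Prime] [CharP k p]

theorem coeff_cmp_tau (e : ℕ) (P : σ → k) (f : MvPolynomial σ k) (δ : σ →₀ ℕ) :
    coeff δ (tau (fun i => P i ^ p ^ e) (cmp (p ^ e) (fe σ (p ^ e)) f)) =
      coeff (fe σ (p ^ e) + (p ^ e) • δ) (tau P f) := by
  have hq : 0 < p ^ e := pow_pos (Fact.out (p := p.Prime)).pos _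
  rw [← cmp_tau e P (fe_lt hq), coeff_cmp (fe_lt hq)]
  intro γ _ hle
  apply le_antisymm _ hle
  intro i
  have := rmd_lt hq γ i
  rw [fe_apply]
  omega

theorem eval_cmp (e : ℕ) (P : σ → k) (f : MvPolynomial σ k) :
    eval (fun i => P i ^ p ^ e) (cmp (p ^ e) (fe σ (p ^ e)) f) = th (p ^ e) P f := by
  rw [← coeff_zero_tau, coeff_cmp_tau, smul_zero, add_zero]; rfl

theorem totalDegree_cmp {e t : ℕ} {f : MvPolynomial σ k}
    (hf : f.totalDegree < Fintype.card σ * (p ^ e - 1) + p ^ e * (t + 1)) :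
    (cmp (p ^ e) (fe σ (p ^ e)) f).totalDegree ≤ t := by
  have hq : 0 < p ^ e := pow_pos (Fact.out (p := p.Prime)).pos _
  apply Finset.sup_le
  intro δ hδ
  rw [mem_support_iff, coeff_cmp (fe_lt hq)] at hδ
  have h1 := degree_le_of_coeff_ne hδ
  rw [map_add, map_nsmul, smul_eq_mul, fe_degree] at h1
  have h2 : p ^ e * δ.degree < p ^ e * (t + 1) := by omega
  have h3 := Nat.lt_of_mul_lt_mul_left h2
  have h4 : (δ.sum fun _ e => e) = δ.degree := rfl
  omega

variable {ι : Type*} [Fintype ι] [DecidableEq ι] {t : ℕ} {S : ι → σ → k}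
  {E : ι → MvPolynomial σ k}

/-- the polynomial `cmp f` is the interpolation of the values `th (S i) f` -/
theorem cmp_eq_sum (U : Uni t S E) (e : ℕ) {f : MvPolynomial σ k}
    (hf : f.totalDegree < Fintype.card σ * (p ^ e - 1) + p ^ e * (t + 1)) :
    cmp (p ^ e) (fe σ (p ^ e)) f =
      ∑ i, C (th (p ^ e) (S i) f) * MvPolynomial.map (iterateFrobenius k p e) (E i) := by
  have h := (U.map (iterateFrobenius k p e)).expand _ (totalDegree_cmp hf)
  refine h.trans ?_
  apply Finset.sum_congr rfl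
  intro i _
  congr 2
  have : (fun l => (iterateFrobenius k p e) (S i l)) = fun l => S i l ^ p ^ e := by
    funext l
    rw [iterateFrobenius_def]
  rw [this, eval_cmp]

theorem eval_map_frob (e : ℕ) (P : σ → k) (f : MvPolynomial σ k) :
    eval (fun i => P i ^ p ^ e) (MvPolynomial.map (iterateFrobenius k p e) f) =
      (eval P f) ^ p ^ e := by
  have h := eval₂_comp (iterateFrobenius k p e) P f
  rw [← iterateFrobenius_def, h, eval_map]
  congr 1

/-- value formula: `th P f = ∑ th (S i) f * (e_i(P))^q` for every point `P` -/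
theorem th_eq_sum (U : Uni t S E) (e : ℕ) {f : MvPolynomial σ k}
    (hf : f.totalDegree < Fintype.card σ * (p ^ e - 1) + p ^ e * (t + 1)) (P : σ → k) :
    th (p ^ e) P f = ∑ i, th (p ^ e) (S i) f * (eval P (E i)) ^ p ^ e := by
  rw [← eval_cmp, cmp_eq_sum U e hf, map_sum]
  apply Finset.sum_congr rfl
  intro i _
  rw [map_mul, eval_C, eval_map_frob]

/-- the basic constraint -/
theorem constr (U : Uni t S E) (e : ℕ) {f : MvPolynomial σ k}
    (hf : f.totalDegree < Fintype.card σ * (p ^ e - 1) + p ^ e * (t + 1)) (P : σ → k)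
    (hord : OrdGE P (Fintype.card σ * (p ^ e - 1) + p ^ e + 1) f) (l : σ) :
    ∑ i, th (p ^ e) (S i) f * (eval P (pderiv l (E i))) ^ p ^ e = 0 := by
  classical
  have h1 : eval (fun i => P i ^ p ^ e)
      (pderiv l (cmp (p ^ e) (fe σ (p ^ e)) f)) = 0 := by
    rw [← ordGE_one_iff]
    apply OrdGE.pderiv
    intro δ hδ
    rw [coeff_cmp_tau]
    apply hord
    rw [map_add, map_nsmul, smul_eq_mul, fe_degree]
    have : p ^ e * δ.degree ≤ p ^ e * 1 := Nat.mul_le_mul_left _ (by omega)
    omega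
  rw [cmp_eq_sum U e hf, map_sum, map_sum] at h1
  rw [← h1]
  apply Finset.sum_congr rfl
  intro i _
  rw [pderiv_C_mul, pderiv_map, map_mul, eval_C, eval_map_frob]

end CharP

end Pool.Agent.Lib.StarN
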