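import Mathlib
import Pool.Agent.Lib.StarN.Theta

set_option autoImplicit false

/-!
# Affine functions and cones
-/

namespace Pool.Agent.Lib.StarN

open MvPolynomial Pool.Agent.Lib.Chud

section

variable {σ : Type*} [Fintype σ] [DecidableEq σ] {k : Type*} [Field k]

/-- the affine function `x ↦ φ (x - P)` -/
noncomputable def aff (φ : (σ → k) →ₗ[k] k) (P : σ → k) : MvPolynomial σ k :=
  ∑ l, C (φ (Pi.single l 1)) * (X l - C (P l))

theorem eval_aff (φ : (σ → k) →ₗ[k] k) (P x : σ → k) : eval x (aff φ P) = φ (x - P) := by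
  conv_rhs => rw [← Finset.univ_sum_single (x - P), map_sum]
  rw [aff, map_sum]
  apply Finset.sum_congr rfl
  intro l _
  have h : (Pi.single l ((x - P) l) : σ → k) = ((x - P) l) • Pi.single l 1 := by
    rw [← Pi.single_smul, smul_eq_mul, mul_one]
  rw [h, map_smul, map_mul, eval_C, map_sub, eval_X, eval_C, smul_eq_mul, Pi.sub_apply, mul_comm]

theorem aff_deg (φ : (σ → k) →ₗ[k] k) (P : σ → k) : (aff φ P).totalDegree ≤ 1 := by
  rw [aff]
  apply totalDegree_finsetSum_le
  intro l _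
  refine (totalDegree_mul _ _).trans ?_
  rw [totalDegree_C, zero_add]
  refine (totalDegree_sub _ _).trans ?_
  simp

theorem aff_ord (φ : (σ → k) →ₗ[k] k) (P x : σ → k) (h : φ (x - P) = 0) :
    OrdGE x 1 (aff φ P) := by
  rw [ordGE_one_iff, eval_aff, h]

theorem exists_functional_sep {u v : σ → k} (h : v ∉ Submodule.span k {u}) :
    ∃ φ : (σ → k) →ₗ[k] k, φ u = 0 ∧ φ v ≠ 0 := by
  obtain ⟨f, hf, hf2⟩ := Submodule.exists_dual_map_eq_bot_of_notMem h inferInstance
  refine ⟨f, ?_, hf⟩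
  have : f u ∈ (Submodule.span k {u}).map f :=
    Submodule.mem_map_of_mem (Submodule.subset_span rfl)
  rw [hf2] at this
  simpa using this

variable {ι : Type*} [Fintype ι] {S : ι → σ → k}

theorem exists_cone (hS : Function.Injective S) {i0 j0 : ι} (hij : i0 ≠ j0) {m M : ℕ}
    (hm : Fintype.card ι * m ≤ M) :
    ∃ A : MvPolynomial σ k, A.totalDegree ≤ M ∧ OrdGE (S i0) M A ∧
      (∀ i, i ∉ ln S i0 j0 → OrdGE (S i) m A) ∧
      ∀ i ∈ ln S i0 j0, i ≠ i0 → eval (S i) A ≠ 0 := by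
  classical
  have hv : S j0 - S i0 ≠ 0 := by
    intro h
    exact hij (hS (sub_eq_zero.1 h)).symm
  have h0 : ∃ φ : (σ → k) →ₗ[k] k, φ (S j0 - S i0) ≠ 0 := by
    have h1 : S j0 - S i0 ∉ Submodule.span k {(0 : σ → k)} := by
      rw [Submodule.span_zero_singleton]
      simpa using hv
    obtain ⟨φ, _, h2⟩ := exists_functional_sep h1
    exact ⟨φ, h2⟩
  obtain ⟨φ0, hφ0⟩ := h0
  have h1 : ∀ i, ∃ φ : (σ → k) →ₗ[k] k, i ∉ ln S i0 j0 →
      φ (S i - S i0) = 0 ∧ φ (S j0 - S i0) ≠ 0 := by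
    intro i
    by_cases hi : i ∈ ln S i0 j0
    · exact ⟨0, fun h => absurd hi h⟩
    · have h2 : S j0 - S i0 ∉ Submodule.span k {S i - S i0} := by
        intro h3
        obtain ⟨c, hc⟩ := Submodule.mem_span_singleton.1 h3
        apply hi
        have hc0 : c ≠ 0 := by
          rintro rfl
          rw [zero_smul] at hc
          exact hv hc.symm
        refine ⟨c⁻¹, ?_⟩
        rw [← hc, smul_smul, inv_mul_cancel₀ hc0, one_smul]
        abel
      obtain ⟨φ, h3, h4⟩ := exists_functional_sep h2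
      exact ⟨φ, fun _ => ⟨h3, h4⟩⟩
  choose φ hφ using h1
  set T := Finset.univ.filter (fun i => i ∉ ln S i0 j0) with hT
  have hTm : T.card * m ≤ M := le_trans (Nat.mul_le_mul_right _ (Finset.card_le_univ _)) hm
  have key : ∀ (ψ : (σ → k) →ₗ[k] k), ψ (S j0 - S i0) ≠ 0 → ∀ i ∈ ln S i0 j0, i ≠ i0 →
      eval (S i) (aff ψ (S i0)) ≠ 0 := by
    rintro ψ hψ i ⟨c, hc⟩ hi
    have h2 : S i - S i0 = c • (S j0 - S i0) := by rw [hc]; abel
    rw [eval_aff, h2, map_smul, smul_eq_mul]
    refine mul_ne_zero ?_ hψ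
    rintro rfl
    rw [zero_smul, add_zero] at hc
    exact hi (hS hc)
  refine ⟨(∏ i ∈ T, aff (φ i) (S i0) ^ m) * aff φ0 (S i0) ^ (M - T.card * m), ?_, ?_, ?_, ?_⟩
  · refine (totalDegree_mul _ _).trans ?_
    have h2 : (∏ i ∈ T, aff (φ i) (S i0) ^ m).totalDegree ≤ ∑ i ∈ T, m :=
      totalDegree_finset_prod_le T _ (fun _ => m) (fun i _ => by
        refine (totalDegree_pow _ _).trans ?_
        have := Nat.mul_le_mul_left m (aff_deg (φ i) (S i0))
        simpa using this)
    have h3 : (aff φ0 (S i0) ^ (M - T.card * m)).totalDegree ≤ M - T.card * m := by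
      refine (totalDegree_pow _ _).trans ?_
      have := Nat.mul_le_mul_left (M - T.card * m) (aff_deg φ0 (S i0))
      simpa using this
    rw [Finset.sum_const, smul_eq_mul] at h2
    omega
  · have h2 : OrdGE (S i0) (∑ i ∈ T, m) (∏ i ∈ T, aff (φ i) (S i0) ^ m) := by
      apply OrdGE.finset_prod
      intro i _
      have := (aff_ord (φ i) (S i0) (S i0) (by rw [sub_self, map_zero])).pow m
      rwa [mul_one] at this
    have h3 : OrdGE (S i0) (M - T.card * m) (aff φ0 (S i0) ^ (M - T.card * m)) := by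
      have := (aff_ord φ0 (S i0) (S i0) (by rw [sub_self, map_zero])).pow (M - T.card * m)
      rwa [mul_one] at this
    have h4 := h2.mul h3
    rw [Finset.sum_const, smul_eq_mul] at h4
    apply h4.mono
    omega
  · intro i hi
    have hiT : i ∈ T := by rw [hT, Finset.mem_filter]; exact ⟨Finset.mem_univ _, hi⟩
    rw [← Finset.mul_prod_erase T _ hiT, mul_assoc, mul_comm]
    apply OrdGE.C_mul
    have := (aff_ord (φ i) (S i0) (S i) (hφ i hi).1).pow m
    rwa [mul_one] at this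
  · intro i hi hi0
    rw [map_mul, map_prod, map_pow]
    refine mul_ne_zero ?_ (pow_ne_zero _ (key φ0 hφ0 i hi hi0))
    rw [Finset.prod_ne_zero_iff]
    intro j hj
    rw [map_pow]
    rw [hT, Finset.mem_filter] at hj
    exact pow_ne_zero _ (key (φ j) (hφ j hj.2).2 i hi hi0)

end

end Pool.Agent.Lib.StarN
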