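import Mathlib
import Pool.Agent.Lib.StarN.Cone

set_option autoImplicit false

/-!
# The constraints along a line
-/

namespace Pool.Agent.Lib.StarN

open MvPolynomial Pool.Agent.Lib.Chud

section

variable {σ : Type*} [Fintype σ] [DecidableEq σ] {k : Type*} [Field k] {p : ℕ} [Fact p.Prime]
  [CharP k p] {ι : Type*} [Fintype ι] [DecidableEq ι] {t : ℕ} {S : ι → σ → k}
  {E : ι → MvPolynomial σ k}

/-- `T` has small degree and order `N (q - 1 - r)` at the points -/
structure TData (S : ι → σ → k) (t q r : ℕ) (T : MvPolynomial σ k) : Prop where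
  rq : r ≤ q - 1
  big : Fintype.card ι * (Fintype.card σ * r + 1) ≤ q
  deg : T.totalDegree ≤ (q - 1 - r) * (t + Fintype.card σ)
  ord : ∀ i, OrdGE (S i) (Fintype.card σ * (q - 1 - r)) T

theorem ordGE_sub_eval {P : σ → k} {w : MvPolynomial σ k} :
    OrdGE P 1 (w - C (eval P w)) := by
  rw [ordGE_one_iff]; simp

theorem line_constr (U : Uni t S E) {e r : ℕ} {T : MvPolynomial σ k}
    (hT : TData S t (p ^ e) r T) {i0 j0 : ι} (hij : i0 ≠ j0) {Y w : MvPolynomial σ k} {dY s : ℕ}
    (hY : Y.totalDegree ≤ dY) (hYo : ∀ i ∈ ln S i0 j0, OrdGE (S i) dY Y)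
    (hw : w.totalDegree ≤ 1)
    (hwi : ∀ i ∈ ln S i0 j0, ∀ j ∈ ln S i0 j0, i ≠ j → eval (S i) w ≠ eval (S j) w)
    (hds : dY + s = Fintype.card σ * r) {l : ℕ} (hl : (ln S i0 j0).ncard = l + 1)
    (K : Finset ι) (hK : ∀ j ∈ K, j ∈ ln S i0 j0 ∧ j ≠ i0)
    (hcount : (s + 1) * l + 2 ≤ (r + 1) * t + K.card) :
    ∃ c : ι → k, (∀ j ∈ K, c j ≠ 0) ∧ ∀ l', ∑ j ∈ K, c j *
      th (p ^ e) (S j) (T * (Y * (w - C (eval (S j) w)) ^ s)) *
        (eval (S i0) (pderiv l' (E j))) ^ p ^ e = 0 := by
  classical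
  have hi0 : i0 ∈ ln S i0 j0 := ⟨0, by rw [zero_smul, add_zero]⟩
  set N := Fintype.card σ with hN
  set q := p ^ e with hq
  have hq0 : 0 < q := pow_pos (Fact.out (p := p.Prime)).pos _
  obtain ⟨A, hAd, hAo, hAoff, hAon⟩ := exists_cone (S := S) U.injective hij
    (M := q + 1) (le_trans hT.big (Nat.le_succ _))
  set L : Finset ι := Finset.univ.filter (fun i => i ∈ ln S i0 j0) with hL
  have hmL : ∀ i, i ∈ L ↔ i ∈ ln S i0 j0 := fun i => by simp [hL]
  have hLc : L.card = l + 1 := by
    rw [← hl, ← Set.ncard_coe_finset]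
    congr 1
    ext i
    simp [hL]
  set W : ι → MvPolynomial σ k := fun i => w - C (eval (S i) w) with hW
  have hWd : ∀ i, (W i).totalDegree ≤ 1 := fun i => by
    refine (totalDegree_sub _ _).trans ?_
    rw [totalDegree_C]
    omega
  have hWo : ∀ i, OrdGE (S i) 1 (W i) := fun i => ordGE_sub_eval
  have hWn : ∀ i ∈ L, ∀ j ∈ L, i ≠ j → eval (S i) (W j) ≠ 0 := by
    intro i hi j hj hne
    rw [hW]
    simp only [map_sub, eval_C]
    rw [sub_ne_zero]
    exact hwi i ((hmL i).1 hi) j ((hmL j).1 hj) hne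
  set R : Finset ι := (L.erase i0) \ K with hR
  have hKL : K ⊆ L.erase i0 := by
    intro j hj
    rw [Finset.mem_erase, hmL]
    exact ⟨(hK j hj).2, (hK j hj).1⟩
  have hRc : R.card + K.card = l := by
    rw [hR, Finset.card_sdiff_add_card_eq_card hKL, Finset.card_erase_of_mem ((hmL i0).2 hi0), hLc]
    rfl
  set B : MvPolynomial σ k := ∏ i ∈ L, W i ^ s with hB
  set D : MvPolynomial σ k := ∏ i ∈ R, W i with hD
  have hBd : B.totalDegree ≤ s * (l + 1) := by
    have h2 : B.totalDegree ≤ ∑ i ∈ L, s :=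
      totalDegree_finset_prod_le L _ (fun _ => s) (fun i _ => by
        refine (totalDegree_pow _ _).trans ?_
        have := Nat.mul_le_mul_left s (hWd i)
        simpa using this)
    rw [Finset.sum_const, smul_eq_mul, hLc] at h2
    rw [mul_comm]; exact h2
  have hDd : D.totalDegree ≤ R.card := by
    have h2 : D.totalDegree ≤ ∑ i ∈ R, 1 :=
      totalDegree_finset_prod_le R _ (fun _ => 1) (fun i _ => hWd i)
    simpa using h2
  set f : MvPolynomial σ k := T * (A * (Y * (B * D))) with hf
  have hfd : f.totalDegree < N * (q - 1) + q * (t + 1) := by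
    have h1 : f.totalDegree ≤ (q - 1 - r) * (t + N) + ((q + 1) + (dY + (s * (l + 1) + R.card))) := by
      refine (totalDegree_mul _ _).trans (add_le_add hT.deg ?_)
      refine (totalDegree_mul _ _).trans (add_le_add hAd ?_)
      refine (totalDegree_mul _ _).trans (add_le_add hY ?_)
      exact (totalDegree_mul _ _).trans (add_le_add hBd hDd)
    refine lt_of_le_of_lt h1 ?_
    obtain ⟨u, hu⟩ : ∃ u, q - 1 = u + r := ⟨q - 1 - r, by have := hT.rq; omega⟩
    have hq1 : q = u + r + 1 := by omega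
    have e1 : q - 1 - r = u := by omega
    rw [e1, hu]
    have e2 : (u + r + 1) * (t + 1) = u * t + u + r * t + r + t + 1 := by ring
    have e3 : u * (t + N) = u * t + N * u := by ring
    have e4 : N * (u + r) = N * u + N * r := by ring
    rw [hq1, e2, e3, e4, ← hds]
    have e5 : (s + 1) * l = s * l + l := by ring
    have e6 : s * (l + 1) = s * l + s := by ring
    have e7 : (r + 1) * t = r * t + t := by ring
    rw [e5, e7] at hcount
    rw [e6]
    omega
  have hfo : ∀ j, ∀ (M : ℕ) (G : MvPolynomial σ k), OrdGE (S j) M G →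
      OrdGE (S j) (N * (q - 1 - r) + M) (T * G) := fun j M G h => (hT.ord j).mul h
  have hsum : N * (q - 1 - r) + N * r = N * (q - 1) := by
    rw [← mul_add]
    congr 1
    have := hT.rq
    omega
  -- order at i0
  have hord0 : OrdGE (S i0) (N * (q - 1) + q + 1) f := by
    have hBo : OrdGE (S i0) s B := by
      rw [hB, ← Finset.mul_prod_erase L _ ((hmL i0).2 hi0), mul_comm]
      apply OrdGE.C_mul
      have := (hWo i0).pow s
      rwa [mul_one] at this
    have hBDo : OrdGE (S i0) s (B * D) := by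
      rw [mul_comm]; exact hBo.C_mul D
    have h1 := hfo i0 _ _ (hAo.mul ((hYo i0 hi0).mul hBDo))
    apply h1.mono
    rw [hds]
    omega
  -- vanishing of th outside K
  have hz : ∀ i, i ∉ K → th q (S i) f = 0 := by
    intro i hi
    by_cases hiL : i ∈ ln S i0 j0
    · by_cases hi1 : i = i0
      · subst hi1
        exact th_zero_of_ord hord0 (by rw [← hN]; omega)
      · have hiR : i ∈ R := by
          rw [hR, Finset.mem_sdiff, Finset.mem_erase, hmL]
          exact ⟨⟨hi1, hiL⟩, hi⟩
        have hBo : OrdGE (S i) s B := by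
          rw [hB, ← Finset.mul_prod_erase L _ ((hmL i).2 hiL), mul_comm]
          apply OrdGE.C_mul
          have := (hWo i).pow s
          rwa [mul_one] at this
        have hDo : OrdGE (S i) 1 D := by
          rw [hD, ← Finset.mul_prod_erase R _ hiR, mul_comm]
          exact (hWo i).C_mul _
        have h1 := hfo i _ _ (((hYo i hiL).mul (hBo.mul hDo)).C_mul A)
        apply th_zero_of_ord h1
        have : dY + (s + 1) = N * r + 1 := by omega
        rw [this, ← hN]
        omega
    · have h2 : OrdGE (S i) (N * r + 1) (A * (Y * (B * D))) := by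
        rw [mul_comm A]
        exact (hAoff i hiL).C_mul _
      exact th_zero_of_ord (hfo i _ _ h2) (by rw [← hN]; omega)
  -- value on K
  refine ⟨fun j => eval (S j) (A * ((∏ i ∈ L.erase j, W i ^ s) * D)), ?_, ?_⟩
  · intro j hj
    have hjL := (hK j hj).1
    beta_reduce
    rw [map_mul, map_mul, map_prod, hD, map_prod]
    refine mul_ne_zero (hAon j hjL (hK j hj).2) (mul_ne_zero ?_ ?_)
    · rw [Finset.prod_ne_zero_iff]
      intro i hi
      rw [Finset.mem_erase] at hi
      rw [map_pow]
      exact pow_ne_zero _ (hWn j ((hmL j).2 hjL) i hi.2 (Ne.symm hi.1))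
    · rw [Finset.prod_ne_zero_iff]
      intro i hi
      rw [hR, Finset.mem_sdiff, Finset.mem_erase] at hi
      apply hWn j ((hmL j).2 hjL) i hi.1.2
      rintro rfl
      exact hi.2 hj
  · intro l'
    have h1 := constr U e hfd (S i0) hord0 l'
    rw [← Finset.sum_subset (Finset.subset_univ K) (fun i _ hi => by
      rw [hz i hi, zero_mul])] at h1
    rw [← h1]
    apply Finset.sum_congr rfl
    intro j hj
    have hjL := (hK j hj).1
    congr 1
    have e1 : f = (A * ((∏ i ∈ L.erase j, W i ^ s) * D)) * (T * (Y * W j ^ s)) := by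
      rw [hf, hB, ← Finset.mul_prod_erase L _ ((hmL j).2 hjL)]
      ring
    have h2 : OrdGE (S j) (N * (q - 1)) (T * (Y * W j ^ s)) := by
      have h3 := hfo j _ _ ((hYo j hjL).mul ((hWo j).pow s))
      apply h3.mono
      rw [mul_one, hds, hsum]
    rw [e1, ← hq, th_mul h2]

end

end Pool.Agent.Lib.StarN
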