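import Mathlib
import Pool.Agent.Lib.StarN.LineC
import Pool.Agent.Lib.StarN.Line
import Pool.Agent.Lib.StarN.Conn

set_option autoImplicit false

/-!
# Good points
-/

namespace Pool.Agent.Lib.StarN

open MvPolynomial Pool.Agent.Lib.Chud Pool.Agent.Lib.P5c592f

section

variable {σ : Type*} [Fintype σ] [DecidableEq σ] {k : Type*} [Field k]

theorem sub_mem_span {β : Type*} [Fintype β] (B : Module.Basis β k (σ → k)) (P : σ → k) (m : σ) :
    (X m - C (P m) : MvPolynomial σ k) = ∑ l, C (B l m) * aff (B.coord l) P := by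
  have h1 : ∀ m', ∑ l, B.coord l (Pi.single m' 1) * B l m = if m' = m then 1 else 0 := by
    intro m'
    have h2 := congrFun (B.sum_repr (Pi.single m' (1 : k))) m
    rw [Finset.sum_apply] at h2
    simp only [Pi.smul_apply, smul_eq_mul] at h2
    simp only [Module.Basis.coord_apply]
    rw [h2, Pi.single_apply]
    by_cases h : m = m'
    · rw [if_pos h, if_pos h.symm]
    · rw [if_neg h, if_neg (Ne.symm h)]
  simp only [aff, Finset.mul_sum]
  rw [Finset.sum_comm]
  have h3 : ∀ m' ∈ Finset.univ, ∑ l, C (B l m) * (C (B.coord l (Pi.single m' 1)) *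
      (X m' - C (P m'))) = if m' = m then (X m' - C (P m') : MvPolynomial σ k) else 0 := by
    intro m' _
    have h4 : ∀ l ∈ Finset.univ, C (B l m) * (C (B.coord l (Pi.single m' 1)) *
        (X m' - C (P m'))) = C (B.coord l (Pi.single m' 1) * B l m) *
        (X m' - C (P m') : MvPolynomial σ k) := by
      intro l _
      rw [C_mul]; ring
    rw [Finset.sum_congr rfl h4, ← Finset.sum_mul, ← map_sum, h1]
    split_ifs <;> simp
  rw [Finset.sum_congr rfl h3, Finset.sum_ite_eq']
  simp

theorem mem_span_of_ord {β : Type*} [Fintype β] (B : Module.Basis β k (σ → k)) (P : σ → k)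
    {M : ℕ} {h : MvPolynomial σ k} (hh : OrdGE P M h) :
    h ∈ Ideal.span {g : MvPolynomial σ k | ∃ a : β →₀ ℕ, a.degree = M ∧
      g = ∏ l, aff (B.coord l) P ^ a l} := by
  classical
  rw [ordGE_iff, le_lord_iff_mem] at hh
  have h1 := Ideal.mem_map_of_mem (tau (fun i => - P i) : MvPolynomial σ k →+* MvPolynomial σ k) hh
  have h2 : (tau (fun i => - P i) : MvPolynomial σ k →+* MvPolynomial σ k) (tau P h) = h := by
    show tau (fun i => - P i) (tau P h) = h
    rw [tau_tau]
    have : (fun i => - P i + P i) = fun _ => (0 : k) := by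
      funext i; ring
    rw [this, tau_zero]
  rw [h2, Ideal.map_pow] at h1
  let ρ : MvPolynomial β k →ₐ[k] MvPolynomial σ k := aeval (fun l => aff (B.coord l) P)
  have h3 : (idealOfVars σ k).map (tau (fun i => - P i) : MvPolynomial σ k →+* MvPolynomial σ k) ≤
      (idealOfVars β k).map (ρ : MvPolynomial β k →+* MvPolynomial σ k) := by
    rw [idealOfVars, Ideal.map_span, Ideal.span_le]
    rintro _ ⟨_, ⟨m, rfl⟩, rfl⟩
    show tau (fun i => - P i) (X m) ∈ _
    have h4 : tau (fun i => - P i) (X m) = X m - C (P m) := by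
      rw [tau_X, C_neg]; ring
    rw [h4, sub_mem_span B P m]
    apply Ideal.sum_mem
    intro l _
    apply Ideal.mul_mem_left
    have h5 : aff (B.coord l) P = ρ (X l) := by simp [ρ]
    rw [h5]
    exact Ideal.mem_map_of_mem (ρ : MvPolynomial β k →+* MvPolynomial σ k)
      (Ideal.subset_span ⟨l, rfl⟩)
  have h4 := Ideal.pow_right_mono h3 M h1
  rw [← Ideal.map_pow, pow_idealOfVars_eq_span, Ideal.map_span] at h4
  refine Ideal.span_mono ?_ h4
  rintro _ ⟨_, ⟨a, ha, rfl⟩, rfl⟩
  refine ⟨a, ha, ?_⟩
  show ρ (monomial a 1) = _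
  rw [aeval_monomial, map_one, one_mul, Finsupp.prod_fintype]
  intro i
  exact pow_zero _

theorem th_zero_of_monomials {q M : ℕ} {β : Type*} [Fintype β] (B : Module.Basis β k (σ → k))
    {P : σ → k} {T : MvPolynomial σ k} (hM : M ≤ Fintype.card σ * (q - 1))
    (hT : OrdGE P (Fintype.card σ * (q - 1) - M) T)
    (hz : ∀ a : β →₀ ℕ, a.degree = M → th q P (T * ∏ l, aff (B.coord l) P ^ a l) = 0)
    {h : MvPolynomial σ k} (hh : OrdGE P M h) : th q P (T * h) = 0 := by
  have h1 := mem_span_of_ord B P hh
  suffices OrdGE P M h ∧ th q P (T * h) = 0 from this.2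
  clear hh
  induction h1 using Submodule.span_induction with
  | mem x hx =>
    obtain ⟨a, ha, rfl⟩ := hx
    refine ⟨?_, hz a ha⟩
    have h2 : OrdGE P (∑ l, a l) (∏ l, aff (B.coord l) P ^ a l) := by
      apply OrdGE.finset_prod
      intro l _
      have := (aff_ord (B.coord l) P P (by rw [sub_self, map_zero])).pow (a l)
      rwa [mul_one] at this
    rw [← Finsupp.degree_eq_sum, ha] at h2
    exact h2
  | zero =>
    refine ⟨?_, ?_⟩
    · intro γ _
      rw [map_zero, coeff_zero]
    · rw [mul_zero, th, map_zero, coeff_zero]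
  | add x y _ _ hx hy =>
    refine ⟨hx.1.add hy.1, ?_⟩
    rw [mul_add, th_add, hx.2, hy.2, add_zero]
  | smul c x _ hx =>
    refine ⟨hx.1.C_mul c, ?_⟩
    have h2 : T * c • x = c * (T * x) := by rw [smul_eq_mul]; ring
    have h3 : OrdGE P (Fintype.card σ * (q - 1)) (T * x) := by
      apply (hT.mul hx.1).mono
      omega
    rw [h2, th_mul h3, hx.2, mul_zero]

end

section

variable {σ : Type*} [Fintype σ] [DecidableEq σ] {k : Type*} [Field k] {p : ℕ} [Fact p.Prime]
  [CharP k p] {ι : Type*} [Fintype ι] [DecidableEq ι] {t : ℕ} {S : ι → σ → k}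
  {E : ι → MvPolynomial σ k}

/-- `j` is good for `T` -/
def GoodP (S : ι → σ → k) (q r : ℕ) (T : MvPolynomial σ k) (j : ι) : Prop :=
  ∃ h, OrdGE (S j) (Fintype.card σ * r) h ∧ th q (S j) (T * h) ≠ 0

/-- a good point has `N` full lines in independent directions, which may be prescribed to contain
a given direction -/
theorem good_basis [IsAlgClosed k] (ht : 1 ≤ t) (U : Uni t S E) {e r : ℕ} {T : MvPolynomial σ k}
    (hT : TData S t (p ^ e) r T) {j0 : ι} (hg : GoodP S (p ^ e) r T j0) {i : ι} (hi : i ≠ j0)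
    (ha : Adj S E j0 i) :
    ∃ (b : Set ι) (_ : Fintype b) (B : Module.Basis b k (σ → k)), i ∈ b ∧
      (∀ l : b, B l = S l - S j0) ∧ (∀ l : b, Full t S j0 l) ∧
      th (p ^ e) (S j0) (T * ∏ l : b, aff (B.coord l) (S j0) ^ r) ≠ 0 := by
  classical
  set N := Fintype.card σ with hN
  set q := p ^ e with hq
  have hS := U.injective
  set v : ι → σ → k := fun l => S l - S j0 with hv
  have hs : LinearIndepOn k v {i} := by
    rw [linearIndepOn_singleton_iff]
    intro h
    exact hi (hS (sub_eq_zero.1 h))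
  obtain ⟨b, hb1, hb2, hb3, hb4⟩ := exists_linearIndepOn_extension (t := {l | Adj S E j0 l}) hs
    (by rintro _ rfl; exact ha)
  have hsp : (⊤ : Submodule k (σ → k)) ≤ Submodule.span k (Set.range fun l : b => v l) := by
    have h1 := span_adj U hi
    rw [← h1, Submodule.span_le]
    rintro _ ⟨l, hl, rfl⟩
    have h2 := hb3 ⟨l, hl, rfl⟩
    rw [Set.image_eq_range] at h2
    exact h2
  let B : Module.Basis b k (σ → k) := Module.Basis.mk hb4 hsp
  have hB : ∀ l : b, B l = S l - S j0 := fun l => Module.Basis.mk_apply hb4 hsp l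
  have hbf : Fintype b := Fintype.ofFinite b
  have hbc : Fintype.card b = N := by
    have := Module.finrank_eq_card_basis B
    rw [Module.finrank_fintype_fun_eq_card] at this
    exact this.symm
  have hord : ∀ i, OrdGE (S i) (N * (q - 1) - N * r) T := by
    intro i
    have h1 : N * (q - 1) - N * r = N * (q - 1 - r) := (Nat.mul_sub N (q - 1) r).symm
    rw [h1]
    exact hT.ord i
  have hNr : N * r ≤ N * (q - 1) := Nat.mul_le_mul_left _ hT.rq
  obtain ⟨h, hh1, hh2⟩ := hg
  obtain ⟨a, ha1, ha2⟩ : ∃ a : b →₀ ℕ, a.degree = N * r ∧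
      th q (S j0) (T * ∏ l, aff (B.coord l) (S j0) ^ a l) ≠ 0 := by
    by_contra hcon
    push Not at hcon
    exact hh2 (th_zero_of_monomials B hNr (hord j0) (fun a ha => hcon a ha) hh1)
  have hne : ∀ j : b, (j : ι) ≠ j0 := by
    intro j hj
    apply B.ne_zero j
    rw [hB, hj, sub_self]
  -- coordinates along the line
  have hcoord : ∀ (j l : b) (m : ι), m ∈ ln S (j : ι) j0 → l ≠ j →
      B.coord l (S m - S j0) = 0 := by
    rintro j l m ⟨c, hc⟩ hlj
    have h1 : S m - S j0 = (1 - c) • B j := by
      rw [hc, hB]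
      module
    rw [h1, map_smul, Module.Basis.coord_apply, Module.Basis.repr_self,
      Finsupp.single_eq_of_ne hlj, smul_zero]
  have key : ∀ j : b, ∃ l, (ln S j0 (j : ι)).ncard = l + 1 ∧ l ≤ t ∧ (r + 1) * t ≤ (a j + 1) * l := by
    intro j
    have hle := ncard_ln_le U (hne j)
    have hpos : 0 < (ln S (j : ι) j0).ncard := by
      rw [Set.ncard_pos (Set.toFinite _)]
      exact ⟨_, ln_left S _ _⟩
    obtain ⟨l, hl⟩ : ∃ l, (ln S (j : ι) j0).ncard = l + 1 := ⟨(ln S (j : ι) j0).ncard - 1, by omega⟩
    refine ⟨l, by rw [ln_symm]; exact hl, by omega, ?_⟩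
    by_contra hlt
    push Not at hlt
    obtain ⟨c, hc0, hc⟩ := line_constr (E := E) U hT (hne j)
      (Y := ∏ l ∈ Finset.univ.erase j, aff (B.coord l) (S j0) ^ a l)
      (w := aff (B.coord j) (S j0)) (dY := ∑ l ∈ Finset.univ.erase j, a l) (s := a j)
      (totalDegree_finset_prod_le _ _ _ (fun l _ => by
        refine (totalDegree_pow _ _).trans ?_
        have := Nat.mul_le_mul_left (a l) (aff_deg (B.coord l) (S j0))
        simpa using this))
      (fun m hm => OrdGE.finset_prod _ _ _ (fun l hl => by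
        have := (aff_ord (B.coord l) (S j0) (S m)
          (hcoord j l m hm (Finset.ne_of_mem_erase hl))).pow (a l)
        rwa [mul_one] at this))
      (aff_deg _ _)
      (by
        rintro m ⟨c, hc⟩ m' ⟨c', hc'⟩ hmm h
        apply hmm
        apply hS
        rw [eval_aff, eval_aff] at h
        have h1 : S m - S j0 = (1 - c) • B j := by
          rw [hc, hB]
          module
        have h1' : S m' - S j0 = (1 - c') • B j := by
          rw [hc', hB]
          module
        rw [h1, h1', map_smul, map_smul, Module.Basis.coord_apply, Module.Basis.repr_self,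
          Finsupp.single_eq_same, smul_eq_mul, smul_eq_mul, mul_one, mul_one] at h
        have h2 : c = c' := by linear_combination -h
        rw [hc, hc', h2])
      (by
        rw [← ha1, Finsupp.degree_eq_sum, Finset.sum_erase_add _ _ (Finset.mem_univ j)])
      hl {j0} (fun m hm => by
        rw [Finset.mem_singleton] at hm
        subst hm
        exact ⟨ln_right S _ _, (hne j).symm⟩)
      (by rw [Finset.card_singleton]; omega)
    have hadj : Adj S E j0 (j : ι) := hb1 j.2
    obtain ⟨l', hl'⟩ := hadj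
    have h1 := hc l'
    rw [Finset.sum_singleton] at h1
    have h2 : (eval (S j0)) (aff (B.coord j) (S j0)) = 0 := by
      rw [eval_aff, sub_self, map_zero]
    rw [h2, C_0, sub_zero, Finset.prod_erase_mul _ _ (Finset.mem_univ j)] at h1
    rcases mul_eq_zero.1 h1 with h3 | h3
    · rcases mul_eq_zero.1 h3 with h4 | h4
      · exact hc0 j0 (Finset.mem_singleton_self _) h4
      · exact ha2 h4
    · exact hl' (pow_eq_zero_iff (pow_pos (Fact.out (p := p.Prime)).pos _).ne' |>.1 h3)
  -- all exponents are r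
  have har : ∀ j : b, r ≤ a j := by
    intro j
    obtain ⟨l, _, hlt, hl⟩ := key j
    have h1 : (r + 1) * t ≤ (a j + 1) * t := hl.trans (Nat.mul_le_mul_left _ hlt)
    have h2 := Nat.le_of_mul_le_mul_right h1 (by omega)
    omega
  have hsum : ∑ j : b, a j = ∑ _j : b, r := by
    rw [← Finsupp.degree_eq_sum, ha1, Finset.sum_const, Finset.card_univ, hbc, smul_eq_mul]
  have heq : ∀ j : b, a j = r := by
    have := (Finset.sum_eq_sum_iff_of_le (fun j _ => har j)).1 hsum.symm
    exact fun j => (this j (Finset.mem_univ j)).symm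
  refine ⟨b, hbf, B, hb2 rfl, hB, ?_, ?_⟩
  · intro j
    obtain ⟨l, hl1, hl2, hl3⟩ := key j
    rw [heq] at hl3
    have h1 := Nat.le_of_mul_le_mul_left hl3 (by omega)
    refine ⟨(hne j).symm, ?_⟩
    rw [hl1]
    omega
  · have : ∀ l ∈ (Finset.univ : Finset b), aff (B.coord l) (S j0) ^ a l =
        aff (B.coord l) (S j0) ^ r := fun l _ => by rw [heq]
    rw [Finset.prod_congr rfl this] at ha2
    exact ha2

/-- goodness propagates along full lines with at least three points -/
theorem good_prop [IsAlgClosed k] (ht : 2 ≤ t) (U : Uni t S E) {e r : ℕ} {T : MvPolynomial σ k}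
    (hT : TData S t (p ^ e) r T) {j0 j1 : ι} (hg : GoodP S (p ^ e) r T j0)
    (hf : Full t S j0 j1) : GoodP S (p ^ e) r T j1 := by
  classical
  set N := Fintype.card σ with hN
  set q := p ^ e with hq
  have hS := U.injective
  -- a third point
  obtain ⟨i, hiL, hi0, hi1⟩ : ∃ i ∈ ln S j0 j1, i ≠ j0 ∧ i ≠ j1 := by
    by_contra hcon
    push Not at hcon
    have h1 : ln S j0 j1 ⊆ ({j0, j1} : Finset ι) := by
      intro i hi
      by_cases h : i = j0
      · simp [h]
      · simp [hcon i hi h]
    have h2 := Set.ncard_le_ncard h1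
    rw [Set.ncard_coe_finset, hf.2] at h2
    have h3 := Finset.card_le_two (a := j0) (b := j1)
    omega
  have hfi : Full t S j0 i := hf.of_mem hS hiL hi0
  have hadj : Adj S E j0 i := adj_of_full U hfi.symm
  obtain ⟨b, _, B, hib, hB, hbF, hth⟩ := good_basis (E := E) (by omega) U hT hg hi0 hadj
  let j : b := ⟨i, hib⟩
  have hBj : B j = S i - S j0 := hB j
  have hcoord : ∀ (l : b) (m : ι), m ∈ ln S i j0 → l ≠ j →
      B.coord l (S m - S j0) = 0 := by
    rintro l m ⟨c, hc⟩ hlj
    have h1 : S m - S j0 = (1 - c) • B j := by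
      rw [hc, hBj]
      module
    rw [h1, map_smul, Module.Basis.coord_apply, Module.Basis.repr_self,
      Finsupp.single_eq_of_ne hlj, smul_zero]
  have hbc : Fintype.card b = N := by
    have := Module.finrank_eq_card_basis B
    rw [Module.finrank_fintype_fun_eq_card] at this
    exact this.symm
  set Y : MvPolynomial σ k := ∏ l ∈ Finset.univ.erase j, aff (B.coord l) (S j0) ^ r with hY
  have hYo : ∀ m ∈ ln S i j0, OrdGE (S m) (∑ l ∈ Finset.univ.erase j, r) Y := fun m hm =>
    OrdGE.finset_prod _ _ _ (fun l hl => by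
        have := (aff_ord (B.coord l) (S j0) (S m)
          (hcoord l m hm (Finset.ne_of_mem_erase hl))).pow r
        rwa [mul_one] at this)
  have hdY : ∑ l ∈ Finset.univ.erase j, r + r = N * r := by
    rw [Finset.sum_erase_add _ (fun _ : b => r) (Finset.mem_univ j), Finset.sum_const,
      Finset.card_univ, hbc, smul_eq_mul]
  have hlc : (ln S i j0).ncard = t + 1 := by rw [ln_symm]; exact hfi.2
  have hlneq : ln S i j0 = ln S j0 j1 := by
    rw [ln_symm]
    exact ln_eq hS hiL hi0
  have hj1 : j1 ∈ ln S i j0 := by rw [hlneq]; exact ln_right S _ _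
  have hj01 : j0 ≠ j1 := hf.1
  obtain ⟨c, hc0, hc⟩ := line_constr (E := E) U hT hi0
      (Y := Y) (w := aff (B.coord j) (S j0)) (dY := ∑ l ∈ Finset.univ.erase j, r) (s := r)
      (totalDegree_finset_prod_le _ _ _ (fun l _ => by
        refine (totalDegree_pow _ _).trans ?_
        have := Nat.mul_le_mul_left r (aff_deg (B.coord l) (S j0))
        simpa using this))
      hYo
      (aff_deg _ _)
      (by
        rintro m ⟨c, hc⟩ m' ⟨c', hc'⟩ hmm h
        apply hmm
        apply hS
        rw [eval_aff, eval_aff] at h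
        have h1 : S m - S j0 = (1 - c) • B j := by
          rw [hc, hBj]
          module
        have h1' : S m' - S j0 = (1 - c') • B j := by
          rw [hc', hBj]
          module
        rw [h1, h1', map_smul, map_smul, Module.Basis.coord_apply, Module.Basis.repr_self,
          Finsupp.single_eq_same, smul_eq_mul, smul_eq_mul, mul_one, mul_one] at h
        have h2 : c = c' := by linear_combination -h
        rw [hc, hc', h2])
      hdY hlc {j0, j1} (fun m hm => by
        rw [Finset.mem_insert, Finset.mem_singleton] at hm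
        rcases hm with rfl | rfl
        · exact ⟨ln_right S _ _, hi0.symm⟩
        · exact ⟨hj1, hi1.symm⟩)
      (by rw [Finset.card_pair hj01])
  obtain ⟨l', hl'⟩ := hadj
  have h1 := hc l'
  rw [Finset.sum_pair hj01] at h1
  have h2 : (eval (S j0)) (aff (B.coord j) (S j0)) = 0 := by
    rw [eval_aff, sub_self, map_zero]
  rw [h2, C_0, sub_zero, hY, Finset.prod_erase_mul _ _ (Finset.mem_univ j)] at h1
  refine ⟨Y * (aff (B.coord j) (S j0) - C (eval (S j1) (aff (B.coord j) (S j0)))) ^ r, ?_, ?_⟩
  · have h3 := (hYo j1 hj1).mul ((ordGE_sub_eval (P := S j1)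
      (w := aff (B.coord j) (S j0))).pow r)
    rw [mul_one, hdY] at h3
    exact h3
  · intro h3
    rw [hY] at h3
    rw [h3, mul_zero, zero_mul, add_zero] at h1
    rcases mul_eq_zero.1 h1 with h4 | h4
    · rcases mul_eq_zero.1 h4 with h5 | h5
      · exact hc0 j0 (Finset.mem_insert_self _ _) h5
      · exact hth h5
    · exact hl' (pow_eq_zero_iff (pow_pos (Fact.out (p := p.Prime)).pos _).ne' |>.1 h4)

end

end Pool.Agent.Lib.StarN
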