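import Mathlib
import Pool.Agent.Lib.StarN.Good

set_option autoImplicit false

/-!
# Existence of good points, extra points, and the conclusion in characteristic `p`
-/

namespace Pool.Agent.Lib.StarN

open MvPolynomial Pool.Agent.Lib.Chud Pool.Agent.Lib.P5c592f

section

variable {σ : Type*} [Fintype σ] [DecidableEq σ] {k : Type*} [Field k] [IsAlgClosed k]
  {p : ℕ} [Fact p.Prime] [CharP k p]

/-- the top lemma with the information when the top exponent is full -/
theorem exists_top' (e : ℕ) {f : MvPolynomial σ k}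
    (hf : f ≠ 0) : ∃ (g : MvPolynomial σ k) (n : ℕ), g ≠ 0 ∧ n ≤ Fintype.card σ * (p ^ e - 1) ∧
      (n = Fintype.card σ * (p ^ e - 1) → cmp (p ^ e) (fe σ (p ^ e)) f ≠ 0) ∧
      p ^ e * g.totalDegree + n ≤ f.totalDegree ∧
      ∀ (P : σ → k) (M j : ℕ), OrdGE P M f → n + p ^ e * j < M + p ^ e → OrdGE P j g := by
  classical
  have hq : 0 < p ^ e := pow_pos (Fact.out (p := p.Prime)).pos _
  obtain ⟨γ₀, hγ₀, hmax⟩ := Finset.exists_max_image f.support (fun γ => (rmd (p ^ e) γ).degree)
    (by rwa [Finset.nonempty_iff_ne_empty, Ne, support_eq_empty])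
  set a := rmd (p ^ e) γ₀ with ha_def
  have ha : ∀ i, a i < p ^ e := rmd_lt hq γ₀
  have hmax' : ∀ γ ∈ f.support, a ≤ rmd (p ^ e) γ → rmd (p ^ e) γ = a := by
    intro γ hγ hle
    obtain ⟨c, hc⟩ := exists_add_of_le hle
    have h1 := hmax γ hγ
    rw [hc, map_add] at h1
    have h2 : c.degree = 0 := by omega
    rw [Finsupp.degree_eq_zero_iff] at h2
    rw [hc, h2, add_zero]
  have hfrob : Function.Surjective (iterateFrobenius k p e) := by
    intro c
    obtain ⟨b, hb⟩ := IsAlgClosed.exists_pow_nat_eq c hq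
    exact ⟨b, by rw [iterateFrobenius_def]; exact hb⟩
  have hfinj : Function.Injective (iterateFrobenius k p e) := RingHom.injective _
  obtain ⟨g, hg⟩ := MvPolynomial.map_surjective (σ := σ) _ hfrob (cmp (p ^ e) a f)
  have hcoef : ∀ δ, coeff δ g ≠ 0 ↔ coeff (a + (p ^ e) • δ) f ≠ 0 := by
    intro δ
    rw [← coeff_cmp ha, ← hg, coeff_map, map_ne_zero]
  have hg0 : g ≠ 0 := by
    intro h0
    have h1 := hcoef (quo (p ^ e) γ₀)
    rw [ha_def, rmd_add_quo, h0, coeff_zero] at h1
    exact h1.2 (mem_support_iff.1 hγ₀) rfl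
  refine ⟨g, a.degree, hg0, ?_, ?_, ?_, ?_⟩
  · rw [Finsupp.degree_eq_sum]
    calc ∑ i, a i ≤ ∑ _i : σ, (p ^ e - 1) := Finset.sum_le_sum (fun i _ => by
          have := ha i; omega)
      _ = Fintype.card σ * (p ^ e - 1) := by simp
  · intro hd
    have h1 : a = fe σ (p ^ e) := by
      have h2 : ∑ i, a i = ∑ _i : σ, (p ^ e - 1) := by
        rw [← Finsupp.degree_eq_sum, hd]; simp
      have h3 := (Finset.sum_eq_sum_iff_of_le (fun i _ => by
        have := ha i; show a i ≤ p ^ e - 1; omega)).1 h2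
      ext i
      rw [fe_apply]
      exact h3 i (Finset.mem_univ i)
    rw [← h1, ← hg]
    intro h2
    apply hg0
    apply MvPolynomial.map_injective _ hfinj
    rw [h2, map_zero]
  · obtain ⟨δ, hδ, hdeg⟩ : ∃ δ ∈ g.support, g.totalDegree = δ.degree := by
      obtain ⟨δ, hδ, h⟩ := Finset.exists_mem_eq_sup g.support
        (by rwa [Finset.nonempty_iff_ne_empty, Ne, support_eq_empty])
        (fun s => s.sum fun _ e => e)
      exact ⟨δ, hδ, h⟩
    have h1 := (hcoef δ).1 (mem_support_iff.1 hδ)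
    have h2 := le_totalDegree (mem_support_iff.2 h1)
    have h3 : ((a + (p ^ e) • δ).sum fun _ e => e) = (a + (p ^ e) • δ).degree := rfl
    rw [h3, map_add, map_nsmul, smul_eq_mul] at h2
    rw [hdeg]
    omega
  · intro P M j hord hM δ hδ
    have h1 : map (iterateFrobenius k p e) (tau P g) = cmp (p ^ e) a (tau P f) := by
      rw [cmp_tau e P ha hmax', map_tau, hg]
      rfl
    apply hfinj
    rw [map_zero, ← coeff_map, h1, coeff_cmp ha]
    apply hord
    rw [map_add, map_nsmul, smul_eq_mul]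
    have h2 : δ.degree + 1 ≤ j := hδ
    have h3 : p ^ e * (δ.degree + 1) ≤ p ^ e * j := Nat.mul_le_mul_left _ h2
    have h4 : p ^ e * (δ.degree + 1) = p ^ e * δ.degree + p ^ e := by ring
    omega

variable {ι : Type*} [Fintype ι] [DecidableEq ι] {t : ℕ} {S : ι → σ → k}
  {E : ι → MvPolynomial σ k}

theorem exists_ne_index [Nonempty σ] (ht : 1 ≤ t) (U : Uni t S E) (j0 : ι) : ∃ j, j ≠ j0 := by
  by_contra hcon
  push Not at hcon
  obtain ⟨m⟩ := ‹Nonempty σ›
  have h1 : (X m - C (S j0 m) : MvPolynomial σ k) = 0 := by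
    apply U.eq_zero
    · refine le_trans (totalDegree_sub _ _) ?_
      simpa using ht
    · intro i
      rw [hcon i]
      simp
  have h2 := congrArg (eval (fun _ => S j0 m + 1)) h1
  simp at h2

theorem exists_adj [Nonempty σ] (ht : 1 ≤ t) (U : Uni t S E) (j0 : ι) :
    ∃ j, j ≠ j0 ∧ Adj S E j0 j := by
  obtain ⟨j, hj⟩ := exists_ne_index ht U j0
  by_contra hcon
  push Not at hcon
  have h1 := span_adj U hj
  have h2 : {v : σ → k | ∃ l, Adj S E j0 l ∧ v = S l - S j0} ⊆ {0} := by
    rintro _ ⟨l, hl, rfl⟩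
    by_cases h : l = j0
    · rw [h, sub_self]; rfl
    · exact absurd hl (hcon l h)
  have h3 := Submodule.span_mono h2 (R := k)
  rw [h1, Submodule.span_zero_singleton] at h3
  obtain ⟨m⟩ := ‹Nonempty σ›
  have h4 : (Pi.single m (1 : k) : σ → k) ∈ (⊥ : Submodule k (σ → k)) := h3 trivial
  have h5 := congrFun ((Submodule.mem_bot k).1 h4) m
  simp at h5

/-- the dual polynomial of a good point vanishes at all other points where the orders of `T` are
large -/
theorem good_extra [Nonempty σ] (ht : 1 ≤ t) (U : Uni t S E) {e r : ℕ} {T : MvPolynomial σ k}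
    (hT : TData S t (p ^ e) r T) {j0 : ι} (hg : GoodP S (p ^ e) r T j0) {P : σ → k}
    (hP : OrdGE P (Fintype.card σ * (p ^ e - 1 - r)) T) (hne : ∀ i, P ≠ S i) :
    eval P (E j0) = 0 := by
  classical
  obtain ⟨i, hi, ha⟩ := exists_adj ht U j0
  obtain ⟨b, _, B, _, _, _, hth⟩ := good_basis (E := E) ht U hT hg hi ha
  set N := Fintype.card σ with hN
  set q := p ^ e with hq
  have hS := U.injective
  have hbc : Fintype.card b = N := by
    have := Module.finrank_eq_card_basis B
    rw [Module.finrank_fintype_fun_eq_card] at this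
    exact this.symm
  set h : MvPolynomial σ k := ∏ l : b, aff (B.coord l) (S j0) ^ r with hh
  have hhd : h.totalDegree ≤ N * r := by
    have h1 : h.totalDegree ≤ ∑ _l : b, r :=
      totalDegree_finset_prod_le _ _ (fun _ => r) (fun l _ => by
        refine (totalDegree_pow _ _).trans ?_
        have := Nat.mul_le_mul_left r (aff_deg (B.coord l) (S j0))
        simpa using this)
    rw [Finset.sum_const, Finset.card_univ, hbc, smul_eq_mul] at h1
    exact h1
  have hho : OrdGE (S j0) (N * r) h := by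
    have h1 : OrdGE (S j0) (∑ _l : b, r) h := by
      apply OrdGE.finset_prod
      intro l _
      have := (aff_ord (B.coord l) (S j0) (S j0) (by rw [sub_self, map_zero])).pow r
      rwa [mul_one] at this
    rw [Finset.sum_const, Finset.card_univ, hbc, smul_eq_mul] at h1
    exact h1
  have hsep : ∀ u : σ → k, u ≠ S j0 → ∃ φ : (σ → k) →ₗ[k] k, φ (S j0 - u) ≠ 0 := by
    intro u hu
    have h1 : S j0 - u ∉ Submodule.span k {(0 : σ → k)} := by
      rw [Submodule.span_zero_singleton, Submodule.mem_bot, sub_eq_zero]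
      exact hu.symm
    obtain ⟨φ, _, h2⟩ := exists_functional_sep h1
    exact ⟨φ, h2⟩
  have h1 : ∀ i, ∃ φ : (σ → k) →ₗ[k] k, i ≠ j0 → φ (S j0 - S i) ≠ 0 := by
    intro i
    by_cases hij : i = j0
    · exact ⟨0, fun h => absurd hij h⟩
    · obtain ⟨φ, hφ⟩ := hsep (S i) (fun h => hij (hS h))
      exact ⟨φ, fun _ => hφ⟩
  choose φ hφ using h1
  obtain ⟨ψ, hψ⟩ := hsep P (hne j0)
  set D : MvPolynomial σ k := ∏ i ∈ Finset.univ.erase j0, aff (φ i) (S i) ^ (N * r + 1) with hD
  set G : MvPolynomial σ k := aff ψ P ^ (N * r + 1) with hG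
  have hpow : ∀ (φ : (σ → k) →ₗ[k] k) (Q : σ → k),
      (aff φ Q ^ (N * r + 1)).totalDegree ≤ N * r + 1 := by
    intro φ Q
    refine (totalDegree_pow _ _).trans ?_
    have := Nat.mul_le_mul_left (N * r + 1) (aff_deg φ Q)
    simpa using this
  have hpo : ∀ (φ : (σ → k) →ₗ[k] k) (Q : σ → k), OrdGE Q (N * r + 1) (aff φ Q ^ (N * r + 1)) := by
    intro φ Q
    have := (aff_ord φ Q Q (by rw [sub_self, map_zero])).pow (N * r + 1)
    rwa [mul_one] at this
  have hDd : D.totalDegree ≤ (Fintype.card ι - 1) * (N * r + 1) := by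
    have h2 : D.totalDegree ≤ ∑ i ∈ Finset.univ.erase j0, (N * r + 1) :=
      totalDegree_finset_prod_le _ _ _ (fun i _ => hpow _ _)
    rw [Finset.sum_const, smul_eq_mul, Finset.card_erase_of_mem (Finset.mem_univ j0),
      Finset.card_univ] at h2
    exact h2
  set f : MvPolynomial σ k := (D * G) * (T * h) with hf
  have hcι : 1 ≤ Fintype.card ι := Fintype.card_pos_iff.2 ⟨j0⟩
  have hfd : f.totalDegree < N * (q - 1) + q * (t + 1) := by
    have h2 : f.totalDegree ≤ ((Fintype.card ι - 1) * (N * r + 1) + (N * r + 1)) +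
        ((q - 1 - r) * (t + N) + N * r) := by
      refine (totalDegree_mul _ _).trans (add_le_add ?_ ?_)
      · exact (totalDegree_mul _ _).trans (add_le_add hDd (hpow _ _))
      · exact (totalDegree_mul _ _).trans (add_le_add hT.deg hhd)
    refine lt_of_le_of_lt h2 ?_
    have h3 : (Fintype.card ι - 1) * (N * r + 1) + (N * r + 1) = Fintype.card ι * (N * r + 1) := by
      obtain ⟨c, hc⟩ : ∃ c, Fintype.card ι = c + 1 := ⟨Fintype.card ι - 1, by omega⟩
      rw [hc]
      simp only [Nat.add_sub_cancel]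
      ring
    have h4 : Fintype.card ι * (N * r + 1) ≤ q := hT.big
    rw [h3]
    obtain ⟨u, hu⟩ : ∃ u, q - 1 = u + r := ⟨q - 1 - r, by have := hT.rq; omega⟩
    have hq0 : 0 < q := pow_pos (Fact.out (p := p.Prime)).pos _
    have hq1 : q = u + r + 1 := by omega
    have e1 : q - 1 - r = u := by omega
    rw [e1, hu]
    have e2 : q * (t + 1) = u * t + r * t + t + q := by rw [hq1]; ring
    have e3 : u * (t + N) = u * t + N * u := by ring
    have e4 : N * (u + r) = N * u + N * r := by ring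
    rw [e2, e3, e4]
    omega
  have hsum : N * (q - 1 - r) + N * r = N * (q - 1) := by
    rw [← mul_add]
    congr 1
    have := hT.rq
    omega
  have hfe : f = h * ((D * G) * T) := by rw [hf]; ring
  have hz : ∀ i, i ≠ j0 → th q (S i) f = 0 := by
    intro i hi
    have h2 : OrdGE (S i) ((N * r + 1) + N * (q - 1 - r)) f := by
      have h3 : OrdGE (S i) (N * r + 1) (D * G) := by
        have h4 : D = aff (φ i) (S i) ^ (N * r + 1) *
            ∏ x ∈ (Finset.univ.erase j0).erase i, aff (φ x) (S x) ^ (N * r + 1) :=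
          (Finset.mul_prod_erase (Finset.univ.erase j0) (fun x => aff (φ x) (S x) ^ (N * r + 1))
            (Finset.mem_erase.2 ⟨hi, Finset.mem_univ i⟩)).symm
        have h5 : D * G = ((∏ x ∈ (Finset.univ.erase j0).erase i,
            aff (φ x) (S x) ^ (N * r + 1)) * G) * aff (φ i) (S i) ^ (N * r + 1) := by
          rw [h4]; ring
        rw [h5]
        exact (hpo (φ i) (S i)).C_mul _
      rw [hfe]
      exact (h3.mul (hT.ord i)).C_mul h
    exact th_zero_of_ord h2 (by rw [← hN]; omega)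
  have hzP : th q P f = 0 := by
    have h2 : OrdGE P ((N * r + 1) + N * (q - 1 - r)) f := by
      have h3 : OrdGE P (N * r + 1) (D * G) := (hpo ψ P).C_mul D
      rw [hfe]
      exact (h3.mul hP).C_mul h
    exact th_zero_of_ord h2 (by rw [← hN]; omega)
  have h2 := th_eq_sum U e hfd P
  rw [← hq, hzP, Finset.sum_eq_single j0 (fun i _ hi => by rw [hz i hi, zero_mul])
    (fun h => absurd (Finset.mem_univ j0) h)] at h2
  have h3 : OrdGE (S j0) (N * (q - 1)) (T * h) := by
    have := (hT.ord j0).mul hho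
    rwa [← hN, hsum] at this
  rw [hf, th_mul h3, map_mul] at h2
  have h4 : eval (S j0) D ≠ 0 := by
    rw [hD, map_prod, Finset.prod_ne_zero_iff]
    intro i hi
    rw [map_pow, eval_aff]
    exact pow_ne_zero _ (hφ i (Finset.ne_of_mem_erase hi))
  have h5 : eval (S j0) G ≠ 0 := by
    rw [hG, map_pow, eval_aff]
    exact pow_ne_zero _ hψ
  have h6 := mul_ne_zero (mul_ne_zero h4 h5) hth
  have h7 := (mul_eq_zero.1 h2.symm).resolve_left h6
  exact pow_eq_zero_iff (pow_pos (Fact.out (p := p.Prime)).pos _).ne' |>.1 h7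

end

end Pool.Agent.Lib.StarN
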