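import Mathlib
import Pool.Agent.Lib.StarN.Exist

set_option autoImplicit false

/-!
# The conclusion in characteristic `p`
-/

namespace Pool.Agent.Lib.StarN

open MvPolynomial Pool.Agent.Lib.Chud Pool.Agent.Lib.P5c592f

section

variable {σ : Type*} [Fintype σ] [DecidableEq σ] {k : Type*} [Field k] [IsAlgClosed k]
  {ι : Type*} [Fintype ι] [DecidableEq ι] {t : ℕ} {S : ι → σ → k}
  {E : ι → MvPolynomial σ k}

/-- existence of good points -/
theorem exists_good {p : ℕ} [Fact p.Prime] [CharP k p] [Nonempty ι] (ht : 1 ≤ t) (U : Uni t S E) {e r : ℕ}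
    {T : MvPolynomial σ k} (hT0 : T ≠ 0)
    (hT : TData S t (p ^ e) r T) {H : MvPolynomial σ k} (hH0 : H ≠ 0)
    (hHo : ∀ i, OrdGE (S i) (Fintype.card σ * r) H)
    (hHd : H.totalDegree + 1 ≤ r * (t + Fintype.card σ) + t) :
    (∃ j, GoodP S (p ^ e) r T j) ∧ (t = 1 → ∀ j, GoodP S (p ^ e) r T j) := by
  classical
  set N := Fintype.card σ with hN
  set q := p ^ e with hq
  have hq0 : 0 < q := pow_pos (Fact.out (p := p.Prime)).pos _
  set f : MvPolynomial σ k := T * H with hf
  have hf0 : f ≠ 0 := mul_ne_zero hT0 hH0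
  have hrq := hT.rq
  have hsum : N * (q - 1 - r) + N * r = N * (q - 1) := by
    rw [← mul_add]
    congr 1
    omega
  have hfo : ∀ i, OrdGE (S i) (N * (q - 1)) f := by
    intro i
    have := (hT.ord i).mul (hHo i)
    rwa [← hN, hsum] at this
  obtain ⟨u, hu⟩ : ∃ u, q - 1 = u + r := ⟨q - 1 - r, by omega⟩
  have hq1 : q = u + r + 1 := by omega
  have hur : q - 1 - r = u := by omega
  have hfd : f.totalDegree + 1 ≤ N * (q - 1) + q * t := by
    have h1 : f.totalDegree ≤ T.totalDegree + H.totalDegree := totalDegree_mul _ _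
    have h2 : T.totalDegree ≤ (q - 1 - r) * (t + N) := hT.deg
    rw [hur] at h2
    have e1 : u * (t + N) = u * t + N * u := by ring
    have e2 : r * (t + N) = r * t + N * r := by ring
    have e3 : N * (u + r) = N * u + N * r := by ring
    have e4 : q * t = u * t + r * t + t := by rw [hq1]; ring
    rw [hu, e3, e4]
    rw [e1] at h2
    rw [e2] at hHd
    omega
  obtain ⟨t', ht'⟩ : ∃ t', t = t' + 1 := ⟨t - 1, by omega⟩
  have hΦd : (cmp q (fe σ q) f).totalDegree ≤ t' := by
    apply totalDegree_cmp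
    rw [← hN, ← hq, ← ht']
    omega
  have hΦ : cmp q (fe σ q) f ≠ 0 := by
    obtain ⟨g, n, hg0, hn, hfull, hdeg, hgo⟩ := exists_top' (p := p) e hf0
    by_cases hnN : n = N * (q - 1)
    · exact hfull hnN
    · exfalso
      have hn' : n < N * (q - 1) := lt_of_le_of_ne hn hnN
      obtain ⟨j, hj1, hj2⟩ : ∃ j, n + q * (j + 1) < N * (q - 1) + q ∧
          N * (q - 1) ≤ n + q * (j + 1) := by
        obtain ⟨a, ha⟩ : ∃ a, N * (q - 1) = n + 1 + a := ⟨N * (q - 1) - n - 1, by omega⟩
        have h1 := Nat.div_add_mod a q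
        have h2 := Nat.mod_lt a hq0
        refine ⟨a / q, ?_, ?_⟩
        · rw [ha, mul_add, mul_one]
          omega
        · rw [ha, mul_add, mul_one]
          omega
      have h1 := degree_add (p := p) S (fun _ => 1) (t + 1) (fun g hg0 hg => by
        by_contra hlt
        exact hg0 (U.eq_zero (by omega) (fun i => (ordGE_one_iff _ _).1 (hg i)))) j g hg0
        (fun i => by
          rw [add_comm]
          exact hgo (S i) (N * (q - 1)) (j + 1) (hfo i) hj1)
      have h2 : q * (t + 1 + j) ≤ q * g.totalDegree := Nat.mul_le_mul_left _ h1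
      have h3 : q * (t + 1 + j) = q * t + q * (j + 1) := by ring
      have h4 : q * g.totalDegree + n ≤ f.totalDegree := hdeg
      omega
  have hval : cmp q (fe σ q) f =
      ∑ i, C (th q (S i) f) * MvPolynomial.map (iterateFrobenius k p e) (E i) := by
    apply cmp_eq_sum U e
    rw [← hN, ← hq]
    have : q * (t + 1) = q * t + q := by ring
    omega
  refine ⟨?_, ?_⟩
  · by_contra hcon
    push Not at hcon
    apply hΦ
    rw [hval]
    apply Finset.sum_eq_zero
    intro i _
    have : th q (S i) f = 0 := by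
      by_contra hne
      exact hcon i ⟨H, hHo i, hne⟩
    rw [this, C_0, zero_mul]
  · intro ht1 j
    refine ⟨H, hHo j, ?_⟩
    have h1 : (cmp q (fe σ q) f).totalDegree = 0 := by omega
    rw [totalDegree_eq_zero_iff_eq_C] at h1
    have h2 := eval_cmp (p := p) e (S j) f
    rw [← hq, h1, eval_C] at h2
    rw [← hf, ← h2]
    intro h3
    apply hΦ
    rw [h1, h3, C_0]

/-- the conclusion in characteristic `p` -/
theorem charp_main (p : ℕ) [Fact p.Prime] [CharP k p] [Nonempty ι] [Nonempty σ] (ht : 1 ≤ t) (U : Uni t S E) {n0 : ℕ} (hn0 : 1 ≤ n0)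
    {F : MvPolynomial σ k} (hF0 : F ≠ 0) (hFd : F.totalDegree ≤ n0 * (t + Fintype.card σ))
    (hFo : ∀ i, OrdGE (S i) (n0 * Fintype.card σ) F) :
    (∀ i j, i ≠ j → Adj S E i j → Full t S i j) ∧
      ∀ P, OrdGE P (n0 * Fintype.card σ) F → ∃ i, P = S i := by
  classical
  set N := Fintype.card σ with hN
  have hN1 : 1 ≤ N := Fintype.card_pos
  set M := Fintype.card ι * (N * n0 + 1) + 1 with hM
  have hMq : M < p ^ M := Nat.lt_pow_self (Fact.out (p := p.Prime)).one_lt
  set q := p ^ M with hq
  have hq0 : 0 < q := by omega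
  set r := (q - 1) % n0 with hr
  set m := (q - 1) / n0 with hm
  have hrm : n0 * m + r = q - 1 := Nat.div_add_mod _ _
  have hrn : r < n0 := Nat.mod_lt _ (by omega)
  have hur : q - 1 - r = n0 * m := by omega
  set T : MvPolynomial σ k := F ^ m with hTdef
  have hT0 : T ≠ 0 := pow_ne_zero _ hF0
  have hord : ∀ P, OrdGE P (n0 * N) F → OrdGE P (N * (q - 1 - r)) T := by
    intro P hP
    have := hP.pow m
    have e1 : m * (n0 * N) = N * (n0 * m) := by ring
    rwa [e1, ← hur] at this
  have hT : TData S t q r T := by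
    refine ⟨by omega, ?_, ?_, ?_⟩
    · rw [← hN]
      have h1 : Fintype.card ι * (N * r + 1) ≤ Fintype.card ι * (N * n0 + 1) := by
        apply Nat.mul_le_mul_left
        have := Nat.mul_le_mul_left N hrn.le
        omega
      omega
    · rw [← hN, hur, hTdef]
      refine (totalDegree_pow _ _).trans ?_
      calc m * F.totalDegree ≤ m * (n0 * (t + N)) := Nat.mul_le_mul_left _ hFd
        _ = n0 * m * (t + N) := by ring
    · intro i
      exact hord _ (hFo i)
  -- the form H
  obtain ⟨H, hH0, hHo, hHd⟩ : ∃ H : MvPolynomial σ k, H ≠ 0 ∧ (∀ i, OrdGE (S i) (N * r) H) ∧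
      H.totalDegree + 1 ≤ r * (t + N) + t := by
    let Ds : Set ℕ := {d | ∃ H : MvPolynomial σ k, H ≠ 0 ∧ (∀ i, OrdGE (S i) (N * r) H) ∧
      H.totalDegree = d}
    have hne : Ds.Nonempty := ⟨_, F ^ r, pow_ne_zero _ hF0, fun i => by
      have := (hFo i).pow r
      apply this.mono
      calc N * r = 1 * (N * r) := (one_mul _).symm
        _ ≤ n0 * (N * r) := Nat.mul_le_mul_right _ hn0
        _ = r * (n0 * N) := by ring, rfl⟩
    obtain ⟨H, hH0, hHo, hHA⟩ := Nat.sInf_mem hne
    set A := sInf Ds with hA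
    refine ⟨H, hH0, hHo, ?_⟩
    rw [hHA]
    have h1 := charp_all (p := p) (by rw [← hN]; exact hN1) S (fun _ => 1) (fun _ => le_refl 1)
      (N * r) A (fun g hg0 hg => Nat.sInf_le ⟨g, hg0, fun i => by
        have := hg i
        rwa [mul_one] at this, rfl⟩) (n0 * N) (f := F ^ (N * r + N - 1)) (pow_ne_zero _ hF0)
      (fun i => by
        have := (hFo i).pow (N * r + N - 1)
        rw [← hN, mul_one, mul_comm (n0 * N)]
        exact this)
    rw [totalDegree_pow_dom, ← hN] at h1
    have h2 : n0 * N * (A + N - 1) ≤ (N * r + N - 1) * (n0 * (t + N)) :=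
      h1.trans (Nat.mul_le_mul_left _ hFd)
    have h3 : n0 * (N * (A + N - 1)) ≤ n0 * ((N * r + N - 1) * (t + N)) := by
      calc n0 * (N * (A + N - 1)) = n0 * N * (A + N - 1) := by ring
        _ ≤ _ := h2
        _ = _ := by ring
    have h4 := Nat.le_of_mul_le_mul_left h3 (by omega)
    obtain ⟨c, hc⟩ : ∃ c, N = c + 1 := ⟨N - 1, by omega⟩
    rw [hc] at h4 ⊢
    have e1 : A + (c + 1) - 1 = A + c := by omega
    have e2 : (c + 1) * r + (c + 1) - 1 = (c + 1) * r + c := by omega
    rw [e1, e2] at h4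
    by_contra hlt
    push Not at hlt
    have h5 : r * (t + (c + 1)) + t ≤ A := by omega
    have h6 : (c + 1) * (r * (t + (c + 1)) + t + c) ≤ (c + 1) * (A + c) :=
      Nat.mul_le_mul_left _ (by omega)
    have h7 : (c + 1) * (r * (t + (c + 1)) + t + c) =
        ((c + 1) * r + c) * (t + (c + 1)) + t := by ring
    omega
  obtain ⟨⟨j0, hj0⟩, hall1⟩ := exists_good ht U hT0 hT hH0 hHo hHd
  -- all points are good
  have hfullg : ∀ i, GoodP S q r T i → ∀ j, i ≠ j → Adj S E i j → Full t S i j := by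
    intro i hi j hij ha
    obtain ⟨b, _, B, hjb, _, hbF, _⟩ := good_basis (E := E) ht U hT hi (Ne.symm hij) ha
    exact hbF ⟨j, hjb⟩
  have hgood : ∀ i, GoodP S q r T i := by
    by_cases ht1 : t = 1
    · exact hall1 ht1
    · apply conn U {i | GoodP S q r T i} ⟨j0, hj0⟩
      intro i hi j ha
      by_cases hij : i = j
      · rw [← hij]; exact hi
      · exact good_prop (E := E) (by omega) U hT hi (hfullg i hi j hij ha)
  refine ⟨fun i j hij ha => hfullg i (hgood i) j hij ha, ?_⟩
  intro P hP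
  by_contra hcon
  push Not at hcon
  have h1 : ∀ i, eval P (E i) = 0 := fun i =>
    good_extra ht U hT (hgood i) (hord P hP) hcon
  have h2 := U.expand (1 : MvPolynomial σ k) (by simp)
  have h3 := congrArg (eval P) h2
  rw [map_one, map_sum] at h3
  have h4 : ∑ i, eval P (C (eval (S i) (1 : MvPolynomial σ k)) * E i) = 0 := by
    apply Finset.sum_eq_zero
    intro i _
    rw [map_mul, h1, mul_zero]
  rw [h4] at h3
  exact one_ne_zero h3

end

end Pool.Agent.Lib.StarN
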