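import Mathlib
import Pool.Agent.Lib.StarN.CharPMain
import Pool.Agent.Lib.StarN.Line
import Pool.Agent.Lib.Chud.Lefschetz

set_option autoImplicit false

/-!
# Transfer of the main theorem to all fields
-/

namespace Pool.Agent.Lib.StarN

open MvPolynomial Pool.Agent.Lib.Chud Pool.Agent.Lib.P5c592f

universe u

theorem spread {k : Type u} [Field k] (X W : Set k) (hX : X.Finite) (hW : W.Finite) :
    ∃ (B : Subalgebra ℤ k) (K : Type u) (_ : Field K) (_ : IsAlgClosed K) (p : ℕ) (_ : p.Prime)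
      (_ : CharP K p) (φ : B →+* K), (∀ x ∈ X, x ∈ B) ∧
        ∀ y : B, (y : k) ∈ W → (y : k) ≠ 0 → φ y ≠ 0 := by
  obtain ⟨K, hKf, hKa, p, hp, hcp, ⟨φ⟩⟩ :=
    exists_hom_charP k (X ∪ (fun z => z⁻¹) '' W) (hX.union (hW.image _))
  refine ⟨Algebra.adjoin ℤ _, K, hKf, hKa, p, hp, hcp, φ,
    fun x hx => Algebra.subset_adjoin (Or.inl hx), ?_⟩
  intro y hy h0 h
  have h1 : y * ⟨(y : k)⁻¹, Algebra.subset_adjoin (Or.inr ⟨_, hy, rfl⟩)⟩ = 1 :=
    Subtype.ext (mul_inv_cancel₀ h0)
  have h2 := congrArg φ h1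
  rw [map_mul, h, zero_mul, map_one] at h2
  exact zero_ne_one h2

section

variable {σ : Type*} {ι : Type*} [Fintype ι] [DecidableEq ι]
  {R K : Type*} [CommRing R] [CommRing K]

theorem eval_map_comp (φ : R →+* K) (P : σ → R) (f : MvPolynomial σ R) :
    eval (fun l => φ (P l)) (MvPolynomial.map φ f) = φ (eval P f) := by
  have h := eval₂_comp φ P f
  rw [eval_map, h]
  rfl

theorem totalDegree_map_inj {φ : R →+* K} (hφ : Function.Injective φ) (f : MvPolynomial σ R) :
    (MvPolynomial.map φ f).totalDegree = f.totalDegree := by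
  rw [totalDegree, totalDegree, support_map_of_injective f hφ]

theorem Uni.of_map {φ : R →+* K} (hφ : Function.Injective φ) {t : ℕ} {S : ι → σ → R}
    {e : ι → MvPolynomial σ R}
    (U : Uni t (fun i l => φ (S i l)) (fun i => MvPolynomial.map φ (e i))) : Uni t S e := by
  refine ⟨?_, ?_, ?_⟩
  · intro i
    rw [← totalDegree_map_inj hφ]
    exact U.deg i
  · intro i j
    apply hφ
    rw [← eval_map_comp, U.dual]
    split_ifs <;> simp
  · intro a ha
    apply map_injective φ hφ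
    have h1 := U.mono a ha
    have h2 : MvPolynomial.map φ (monomial a (1 : R)) = monomial a (1 : K) := by
      rw [map_monomial, map_one]
    rw [h2, h1, map_sum]
    apply Finset.sum_congr rfl
    intro i _
    rw [map_mul, map_C, ← eval_map_comp φ, h2]

theorem OrdGE.map (φ : R →+* K) {P : σ → R} {n : ℕ} {f : MvPolynomial σ R}
    (h : OrdGE P n f) : OrdGE (fun l => φ (P l)) n (MvPolynomial.map φ f) := by
  intro γ hγ
  rw [← map_tau, coeff_map, h γ hγ, map_zero]

theorem OrdGE.of_map {φ : R →+* K} (hφ : Function.Injective φ) {P : σ → R} {n : ℕ}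
    {f : MvPolynomial σ R} (h : OrdGE (fun l => φ (P l)) n (MvPolynomial.map φ f)) :
    OrdGE P n f := by
  intro γ hγ
  apply hφ
  rw [map_zero, ← coeff_map, map_tau]
  exact h γ hγ

end

/-- the minors detecting collinearity -/
theorem mem_ln_iff {σ : Type*} {ι : Type*} {k : Type*} [Field k] {S : ι → σ → k} {i j : ι}
    (hij : S i ≠ S j) (m : ι) : m ∈ ln S i j ↔ ∀ a b,
      (S m a - S i a) * (S j b - S i b) - (S m b - S i b) * (S j a - S i a) = 0 := by
  constructor
  · rintro ⟨c, hc⟩ a b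
    rw [hc]
    simp only [Pi.add_apply, Pi.smul_apply, Pi.sub_apply, smul_eq_mul]
    ring
  · intro h
    obtain ⟨b, hb⟩ : ∃ b, S i b ≠ S j b := Function.ne_iff.1 hij
    have hb' : S j b - S i b ≠ 0 := sub_ne_zero.2 (Ne.symm hb)
    refine ⟨(S m b - S i b) / (S j b - S i b), ?_⟩
    funext a
    simp only [Pi.add_apply, Pi.smul_apply, Pi.sub_apply, smul_eq_mul]
    field_simp
    linear_combination h a b

section

variable {σ : Type*} [Fintype σ] [DecidableEq σ] {ι : Type*} [Fintype ι] [DecidableEq ι]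
  {k : Type u} [Field k] {t : ℕ} {S : ι → σ → k} {E : ι → MvPolynomial σ k}

theorem affine_core [Nonempty ι] [Nonempty σ] (ht : 1 ≤ t) (U : Uni t S E) {n0 : ℕ} (hn0 : 1 ≤ n0)
    {F : MvPolynomial σ k} (hF0 : F ≠ 0) (hFd : F.totalDegree ≤ n0 * (t + Fintype.card σ))
    (hFo : ∀ i, OrdGE (S i) (n0 * Fintype.card σ) F) {P : σ → k}
    (hP : OrdGE P (n0 * Fintype.card σ) F) :
    (∀ i j, i ≠ j → Adj S E i j → Full t S i j) ∧ ∃ i, P = S i := by
  classical
  let X : Set k := (⋃ i, Set.range (S i)) ∪ Set.range P ∪ (⋃ i, ((E i).coeffs : Set k)) ∪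
    (F.coeffs : Set k)
  let W : Set k := (F.coeffs : Set k) ∪ Set.range (fun x : ι × σ => P x.2 - S x.1 x.2) ∪
    Set.range (fun x : ι × ι × σ => eval (S x.2.1) (pderiv x.2.2 (E x.1))) ∪
    Set.range (fun x : (ι × ι × ι) × (σ × σ) =>
      (S x.1.1 x.2.1 - S x.1.2.1 x.2.1) * (S x.1.2.2 x.2.2 - S x.1.2.1 x.2.2) -
      (S x.1.1 x.2.2 - S x.1.2.1 x.2.2) * (S x.1.2.2 x.2.1 - S x.1.2.1 x.2.1))
  have hX : X.Finite := (((Set.finite_iUnion fun i => Set.finite_range _).union
    (Set.finite_range _)).union (Set.finite_iUnion fun i => Finset.finite_toSet _)).union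
    (Finset.finite_toSet _)
  have hW : W.Finite := (((Finset.finite_toSet _).union (Set.finite_range _)).union
    (Set.finite_range _)).union (Set.finite_range _)
  obtain ⟨B, K, hKf, hKa, p, hp, hcp, φ, hXB, hWB⟩ := spread X W hX hW
  have : Fact p.Prime := ⟨hp⟩
  let ψ : B →+* k := B.val.toRingHom
  have hψ : Function.Injective ψ := Subtype.val_injective
  have hψv : ∀ y : B, ψ y = (y : k) := fun y => rfl
  let SB : ι → σ → B := fun i l => ⟨S i l, hXB _ (Or.inl (Or.inl (Or.inl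
    (Set.mem_iUnion.2 ⟨i, ⟨l, rfl⟩⟩))))⟩
  let PB : σ → B := fun l => ⟨P l, hXB _ (Or.inl (Or.inl (Or.inr ⟨l, rfl⟩)))⟩
  have hSB : ∀ i, (fun l => ψ (SB i l)) = S i := fun i => rfl
  have hPB : (fun l => ψ (PB l)) = P := rfl
  have hlift : ∀ G : MvPolynomial σ k, (∀ x ∈ G.coeffs, x ∈ B) →
      ∃ GB : MvPolynomial σ B, MvPolynomial.map ψ GB = G := by
    intro G hG
    have : G ∈ Set.range (MvPolynomial.map ψ : MvPolynomial σ B →+* MvPolynomial σ k) := by
      rw [mem_range_map_iff_coeffs_subset]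
      intro x hx
      exact ⟨⟨x, hG x hx⟩, rfl⟩
    exact this
  obtain ⟨FB, hFB⟩ := hlift F (fun x hx => hXB x (Or.inr hx))
  have hE : ∀ i, ∃ GB : MvPolynomial σ B, MvPolynomial.map ψ GB = E i := fun i =>
    hlift (E i) (fun x hx => hXB x (Or.inl (Or.inr (Set.mem_iUnion.2 ⟨i, hx⟩))))
  choose EB hEB using hE
  have UB : Uni t SB EB := by
    apply Uni.of_map hψ
    have h1 : (fun i => MvPolynomial.map ψ (EB i)) = E := funext hEB
    rw [h1]
    exact U
  have hordB : ∀ {Q : σ → B}, OrdGE (fun l => ψ (Q l)) (n0 * Fintype.card σ) F →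
      OrdGE Q (n0 * Fintype.card σ) FB := by
    intro Q hQ
    apply OrdGE.of_map hψ
    rw [hFB]
    exact hQ
  have hF'0 : MvPolynomial.map φ FB ≠ 0 := by
    obtain ⟨γ₀, hγ₀⟩ := MvPolynomial.ne_zero_iff.1 hF0
    intro h
    have h1 : φ (coeff γ₀ FB) ≠ 0 := by
      have h2 : ((coeff γ₀ FB : B) : k) = coeff γ₀ F := by
        rw [← hψv, ← coeff_map, hFB]
      apply hWB
      · refine Or.inl (Or.inl (Or.inl ?_))
        rw [h2]
        exact (mem_coeffs_iff (p := F)).2 ⟨γ₀, mem_support_iff.2 hγ₀, rfl⟩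
      · rw [h2]
        exact hγ₀
    apply h1
    rw [← coeff_map, h, coeff_zero]
  have hF'd : (MvPolynomial.map φ FB).totalDegree ≤ n0 * (t + Fintype.card σ) := by
    refine le_trans ?_ hFd
    rw [← hFB, totalDegree_map_inj hψ]
    rw [totalDegree, totalDegree]
    exact Finset.sup_mono (support_map_subset φ _)
  obtain ⟨h1, h2⟩ := charp_main p ht (UB.map φ) hn0 hF'0 hF'd
    (fun i => OrdGE.map φ (hordB (hFo i)))
  have hinj := U.injective
  have hinj' := (UB.map φ).injective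
  refine ⟨?_, ?_⟩
  · intro i j hij ha
    have ha' : Adj (fun i l => φ (SB i l)) (fun i => MvPolynomial.map φ (EB i)) i j := by
      obtain ⟨l, hl⟩ := ha
      refine ⟨l, ?_⟩
      rw [pderiv_map, eval_map_comp]
      have h3 : ((eval (SB j) (pderiv l (EB i)) : B) : k) = eval (S j) (pderiv l (E i)) := by
        rw [← hψv, ← eval_map_comp ψ, ← pderiv_map, hEB, hSB]
      apply hWB
      · refine Or.inl (Or.inr ?_)
        rw [h3]
        exact ⟨(i, j, l), rfl⟩
      · rw [h3]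
        exact hl
    have hf := h1 i j hij ha'
    refine ⟨hij, ?_⟩
    have hsub : ln (fun i l => φ (SB i l)) i j ⊆ ln S i j := by
      intro m hm
      rw [mem_ln_iff (fun h => hij (hinj' h))] at hm
      rw [mem_ln_iff (fun h => hij (hinj h))]
      intro a b
      by_contra hne
      have h3 := hWB ((SB m a - SB i a) * (SB j b - SB i b) - (SB m b - SB i b) * (SB j a - SB i a))
        (Or.inr ⟨((m, i, j), (a, b)), rfl⟩) hne
      apply h3
      rw [map_sub, map_mul, map_mul, map_sub, map_sub, map_sub, map_sub]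
      exact hm a b
    have h3 := Set.ncard_le_ncard hsub (Set.toFinite _)
    rw [hf.2] at h3
    exact le_antisymm (ncard_ln_le U hij) h3
  · obtain ⟨i, hi⟩ := h2 _ (OrdGE.map φ (hordB (Q := PB) hP))
    refine ⟨i, ?_⟩
    funext l
    by_contra hne
    have h3 := hWB (PB l - SB i l) (Or.inl (Or.inl (Or.inr ⟨(i, l), rfl⟩))) (sub_ne_zero.2 hne)
    apply h3
    rw [map_sub, sub_eq_zero]
    exact congrFun hi l

theorem affine_main [Nonempty ι] [Nonempty σ] (ht : 1 ≤ t) (U : Uni t S E) {n0 : ℕ} (hn0 : 1 ≤ n0)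
    {F : MvPolynomial σ k} (hF0 : F ≠ 0) (hFd : F.totalDegree ≤ n0 * (t + Fintype.card σ))
    (hFo : ∀ i, OrdGE (S i) (n0 * Fintype.card σ) F) :
    (∀ i j, i ≠ j → Adj S E i j → Full t S i j) ∧
      ∀ P, OrdGE P (n0 * Fintype.card σ) F → ∃ i, P = S i := by
  obtain ⟨i⟩ := ‹Nonempty ι›
  have : Nonempty ι := ⟨i⟩
  exact ⟨(affine_core ht U hn0 hF0 hFd hFo (hFo i)).1,
    fun P hP => (affine_core ht U hn0 hF0 hFd hFo hP).2⟩

end

end Pool.Agent.Lib.StarN
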