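import Mathlib
import Pool.Agent.Lib.StarN.Conn
import Pool.Agent.Lib.StarN.Line

set_option autoImplicit false

/-!
# Module Geo: the hyperplanes

From `hfull` (points with nonzero differential are joined by full lines) we construct `t + N`
hyperplanes such that every point lies on at least `N` of them.
-/

namespace Pool.Agent.Lib.StarN

open MvPolynomial Pool.Agent.Lib.Chud

variable {k : Type*} [Field k] {σ : Type*} [Fintype σ] {ι : Type*} {t : ℕ}
  {S : ι → σ → k} {e : ι → MvPolynomial σ k}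

/-- the differential of `e Q` at `S P` -/
noncomputable def dd (S : ι → σ → k) (e : ι → MvPolynomial σ k) (Q P : ι) : (σ → k) →ₗ[k] k :=
  ∑ l, (eval (S P) (pderiv l (e Q))) • LinearMap.proj l

theorem dd_apply (Q P : ι) (v : σ → k) :
    dd S e Q P v = ∑ l, v l * eval (S P) (pderiv l (e Q)) := by
  simp [dd, LinearMap.sum_apply, mul_comm]

/-- the hyperplane through `S P` with equation the differential of `e Q` -/
def Hs (S : ι → σ → k) (e : ι → MvPolynomial σ k) (P Q : ι) : Set (σ → k) :=
  {x | dd S e Q P (x - S P) = 0}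

/-- two functionals with comparable kernels are proportional -/
theorem prop_of_ker {V : Type*} [AddCommGroup V] [Module k V] {η η' : V →ₗ[k] k} {v0 v1 : V}
    (h0 : η v0 ≠ 0) (h1 : η' v1 ≠ 0) (hk : ∀ v, η v = 0 → η' v = 0) :
    ∀ v, η' v = 0 ↔ η v = 0 := by
  have key : ∀ v, η' v = (η v / η v0) * η' v0 := by
    intro v
    have h : η (v - (η v / η v0) • v0) = 0 := by
      rw [map_sub, map_smul, smul_eq_mul, div_mul_cancel₀ _ h0, sub_self]
    have h2 := hk _ h
    rw [map_sub, map_smul, smul_eq_mul, sub_eq_zero] at h2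
    exact h2
  have hne : η' v0 ≠ 0 := by
    intro h
    apply h1
    rw [key v1, h, mul_zero]
  intro v
  constructor
  · intro h
    rw [key v] at h
    rcases mul_eq_zero.1 h with h | h
    · rcases div_eq_zero_iff.1 h with h | h
      · exact h
      · exact absurd h h0
    · exact absurd h hne
  · exact hk v

section

variable [Fintype ι] [DecidableEq ι]

theorem dd_zero (U : Uni t S e) {P X Q : ι} (h : Full t S P X) (hQ : Q ∉ ln S P X) :
    dd S e Q P (S X - S P) = 0 := by
  rw [dd_apply]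
  exact deriv_zero U h hQ

theorem dd_ne (U : Uni t S e) {P Q : ι} (h : Full t S P Q) :
    dd S e Q P (S Q - S P) ≠ 0 := by
  rw [dd_apply]
  exact deriv_ne U h

theorem mem_ln_smul {P X X' : ι} (h : X ∈ ln S P X') : ∃ c : k, S X - S P = c • (S X' - S P) := by
  obtain ⟨c, hc⟩ := h
  exact ⟨c, by rw [hc]; simp⟩

theorem not_mem_ln (hS : Function.Injective S) {P Q Q' R : ι} (hQ' : Q' ∈ ln S P Q) (hne : Q' ≠ P)
    (hR : Q ∉ ln S P R) : Q' ∉ ln S P R := by
  intro h
  apply hR
  rw [← ln_eq hS h hne, ln_eq hS hQ' hne]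
  exact ln_right S P Q

theorem not_mem_ln_comm (hS : Function.Injective S) {P Q R : ι} (hQ : Q ≠ P)
    (hR : R ∉ ln S P Q) : Q ∉ ln S P R := by
  intro h
  apply hR
  rw [ln_eq hS h hQ]
  exact ln_right S P R

end

section

variable [Fintype ι] [DecidableEq ι] [IsAlgClosed k]

theorem span_full (U : Uni t S e) (hfull : ∀ i j, i ≠ j → Adj S e i j → Full t S i j)
    {P Q : ι} (hPQ : Q ≠ P) :
    Submodule.span k {v : σ → k | ∃ l, Full t S P l ∧ v = S l - S P} = ⊤ := by
  rw [eq_top_iff, ← span_adj U hPQ, Submodule.span_le]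
  rintro v ⟨l, hl, rfl⟩
  by_cases h : P = l
  · subst h
    simp
  · exact Submodule.subset_span ⟨l, hfull P l h hl, rfl⟩

/-- `ker (d Q P)` is spanned by the other full directions -/
theorem mem_span_of_dd (U : Uni t S e) (hfull : ∀ i j, i ≠ j → Adj S e i j → Full t S i j)
    {P Q : ι} (hPQ : Full t S P Q) {v : σ → k} (hv : dd S e Q P v = 0) :
    v ∈ Submodule.span k {v : σ → k | ∃ l, Full t S P l ∧ l ∉ ln S P Q ∧ v = S l - S P} := by
  set W := Submodule.span k {v : σ → k | ∃ l, Full t S P l ∧ l ∉ ln S P Q ∧ v = S l - S P} with hW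
  have hWk : ∀ w ∈ W, dd S e Q P w = 0 := by
    intro w hw
    have : W ≤ LinearMap.ker (dd S e Q P) := by
      rw [hW, Submodule.span_le]
      rintro w ⟨l, hl, hlQ, rfl⟩
      exact dd_zero U hl (not_mem_ln_comm U.injective hPQ.1.symm hlQ)
    exact this hw
  have h1 : ∀ v : σ → k, ∃ w ∈ W, ∃ c : k, v = w + c • (S Q - S P) := by
    intro v
    have hv : v ∈ Submodule.span k {v : σ → k | ∃ l, Full t S P l ∧ v = S l - S P} := by
      rw [span_full U hfull hPQ.1.symm]
      trivial
    induction hv using Submodule.span_induction with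
    | mem x hx =>
      obtain ⟨l, hl, rfl⟩ := hx
      by_cases h : l ∈ ln S P Q
      · obtain ⟨c, hc⟩ := mem_ln_smul h
        exact ⟨0, W.zero_mem, c, by rw [hc, zero_add]⟩
      · exact ⟨S l - S P, Submodule.subset_span ⟨l, hl, h, rfl⟩, 0, by simp⟩
    | zero => exact ⟨0, W.zero_mem, 0, by simp⟩
    | add x y _ _ hx hy =>
      obtain ⟨w, hw, c, rfl⟩ := hx
      obtain ⟨w', hw', c', rfl⟩ := hy
      exact ⟨w + w', W.add_mem hw hw', c + c', by rw [add_smul]; abel⟩
    | smul a x _ hx =>
      obtain ⟨w, hw, c, rfl⟩ := hx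
      exact ⟨a • w, W.smul_mem a hw, a * c, by rw [smul_add, mul_smul]⟩
  obtain ⟨w, hw, c, rfl⟩ := h1 v
  rw [map_add, hWk w hw, zero_add, map_smul, smul_eq_mul] at hv
  rcases mul_eq_zero.1 hv with h | h
  · rw [h, zero_smul, add_zero]
    exact hw
  · exact absurd h (dd_ne U hPQ)

theorem ker_le (U : Uni t S e) (hfull : ∀ i j, i ≠ j → Adj S e i j → Full t S i j)
    {P Q : ι} (hPQ : Full t S P Q) {η' : (σ → k) →ₗ[k] k}
    (h : ∀ X, Full t S P X → X ∉ ln S P Q → η' (S X - S P) = 0) :
    ∀ v, dd S e Q P v = 0 → η' v = 0 := by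
  intro v hv
  have h1 := mem_span_of_dd U hfull hPQ hv
  have h2 : Submodule.span k {v : σ → k | ∃ l, Full t S P l ∧ l ∉ ln S P Q ∧ v = S l - S P} ≤
      LinearMap.ker η' := by
    rw [Submodule.span_le]
    rintro w ⟨l, hl, hlQ, rfl⟩
    exact h l hl hlQ
  exact h2 h1

/-- (4) -/
theorem Hs_same (U : Uni t S e) (hfull : ∀ i j, i ≠ j → Adj S e i j → Full t S i j)
    {P Q Q' : ι} (hPQ : Full t S P Q) (hQ' : Q' ∈ ln S P Q) (hne : Q' ≠ P) :
    Hs S e P Q = Hs S e P Q' := by
  have hS := U.injective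
  have hPQ' : Full t S P Q' := Full.of_mem hS hPQ hQ' hne
  have hl : ln S P Q' = ln S P Q := ln_eq hS hQ' hne
  have hk := ker_le U hfull hPQ (η' := dd S e Q' P) (by
    intro X hX hXQ
    apply dd_zero U hX
    rw [← hl] at hXQ
    exact not_mem_ln_comm hS hne hXQ)
  ext x
  exact (prop_of_ker (dd_ne U hPQ) (dd_ne U hPQ') hk (x - S P)).symm

/-- (5) -/
theorem Hs_move (ht : 1 ≤ t) (U : Uni t S e)
    (hfull : ∀ i j, i ≠ j → Adj S e i j → Full t S i j)
    {P P' Q : ι} (hPP' : Full t S P P') (hPQ : Full t S P Q) (hne : Q ∉ ln S P P') :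
    ∃ Q', Full t S P' Q' ∧ Hs S e P Q = Hs S e P' Q' := by
  have hS := U.injective
  obtain ⟨Q', hQ', hQ'P, hP'Q'⟩ := triangle ht U hfull hPP' hPQ hne
  refine ⟨Q', hP'Q', ?_⟩
  have hPQ' : Full t S P Q' := Full.of_mem hS hPQ hQ' hQ'P
  have hl : ln S P Q' = ln S P Q := ln_eq hS hQ' hQ'P
  have hQ'n : Q' ∉ ln S P P' := not_mem_ln hS hQ' hQ'P hne
  rw [Hs_same U hfull hPQ hQ' hQ'P]
  have hη : dd S e Q' P (S P' - S P) = 0 := dd_zero U hPP' hQ'n
  have hη' : dd S e Q' P' (S P - S P') = 0 := by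
    apply dd_zero U hPP'.symm
    rw [ln_symm]
    exact hQ'n
  have hk := ker_le U hfull hPQ' (η' := dd S e Q' P') (by
    intro X hX hXQ
    by_cases hXP' : X ∈ ln S P P'
    · obtain ⟨c, hc⟩ := mem_ln_smul hXP'
      rw [hc, map_smul, ← neg_sub, map_neg, hη', neg_zero, smul_zero]
    · obtain ⟨X', hX', hX'P, hP'X'⟩ := triangle ht U hfull hPP' hX hXP'
      have hlX : ln S P X' = ln S P X := ln_eq hS hX' hX'P
      have hPX' : Full t S P X' := Full.of_mem hS hX hX' hX'P
      have hQX : Q' ∉ ln S P X := not_mem_ln_comm hS hQ'P hXQ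
      have hQX' : Q' ∉ ln S P X' := by rw [hlX]; exact hQX
      have hη2 : dd S e Q' P (S X' - S P) = 0 := dd_zero U hPX' hQX'
      have hno : Q' ∉ ln S P' X' := by
        rintro ⟨c, hc⟩
        apply dd_ne U hPQ'
        have : S Q' - S P = (1 - c) • (S P' - S P) + c • (S X' - S P) := by
          rw [hc]
          module
        rw [this, map_add, map_smul, map_smul, hη, hη2, smul_zero, smul_zero, add_zero]
      have h3 : dd S e Q' P' (S X' - S P') = 0 := dd_zero U hP'X' hno
      have h4 : dd S e Q' P' (S X' - S P) = 0 := by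
        have : S X' - S P = (S X' - S P') - (S P - S P') := by module
        rw [this, map_sub, h3, hη', sub_zero]
      have h5 : X ∈ ln S P X' := by
        rw [hlX]
        exact ln_right S P X
      obtain ⟨c, hc⟩ := mem_ln_smul h5
      rw [hc, map_smul, h4, smul_zero])
  ext x
  have h1 := prop_of_ker (dd_ne U hPQ') (dd_ne U hP'Q') hk (x - S P')
  have h2 : dd S e Q' P (x - S P') = dd S e Q' P (x - S P) := by
    have : x - S P' = (x - S P) - (S P' - S P) := by module
    rw [this, map_sub, hη, sub_zero]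
  rw [h2] at h1
  exact h1.symm

/-- all hyperplanes at a point belong to a family -/
def GG {J : Type*} (t : ℕ) (S : ι → σ → k) (e : ι → MvPolynomial σ k) (FF : J → Set (σ → k))
    (R : ι) : Prop :=
  ∀ Z, Full t S R Z → ∃ j, Hs S e R Z = FF j

theorem nice_step {J : Type*} {FF : J → Set (σ → k)} (ht : 1 ≤ t) (U : Uni t S e)
    (hfull : ∀ i j, i ≠ j → Adj S e i j → Full t S i j) {P' P : ι} (hP : Full t S P' P)
    (hG : ∀ R ∈ ln S P' P, GG t S e FF R) :
    ∀ X, (X = P' ∨ Full t S P' X) → GG t S e FF X := by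
  have hS := U.injective
  intro X hX
  rcases hX with rfl | hX
  · exact hG _ (ln_left S _ _)
  by_cases hXl : X ∈ ln S P' P
  · exact hG X hXl
  intro Z hZ
  by_cases hZl : Z ∈ ln S X P'
  · -- `Hs X Z = Hs X P'`
    have h1 : Hs S e X Z = Hs S e X P' :=
      (Hs_same U hfull hX.symm hZl hZ.1.symm).symm
    have hPX : P ∉ ln S P' X := not_mem_ln_comm hS hP.1.symm hXl
    obtain ⟨Y, hY, hYP', hXY⟩ := triangle ht U hfull hX hP hPX
    have hYn : Y ∉ ln S P' X := not_mem_ln hS hY hYP' hPX
    have hP'n : P' ∉ ln S X Y := by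
      intro h
      apply hYn
      have h2 := ln_eq hS h hX.1
      rw [ln_symm S P' X, h2]
      exact ln_right S X Y
    obtain ⟨Z', hZ', hh⟩ := Hs_move ht U hfull hXY hX.symm hP'n
    obtain ⟨j, hj⟩ := hG Y hY Z' hZ'
    exact ⟨j, by rw [h1, hh, hj]⟩
  · obtain ⟨Z', hZ', hh⟩ := Hs_move ht U hfull hX.symm hZ hZl
    obtain ⟨j, hj⟩ := hG P' (ln_left S _ _) Z' hZ'
    exact ⟨j, by rw [hh, hj]⟩

/-- `N` full directions forming a basis -/
theorem exists_basis (U : Uni t S e) (hfull : ∀ i j, i ≠ j → Adj S e i j → Full t S i j)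
    {P Q : ι} (hPQ : Q ≠ P) :
    ∃ X : Fin (Fintype.card σ) → ι, (∀ a, Full t S P (X a)) ∧
      LinearIndependent k (fun a => S (X a) - S P) := by
  classical
  set s : Set (σ → k) := {v : σ → k | ∃ l, Full t S P l ∧ v = S l - S P} with hs
  obtain ⟨b, hbs, hbspan, hbli⟩ := exists_linearIndependent k s
  rw [span_full U hfull hPQ] at hbspan
  have hfin : Finite b := hbli.finite
  have := Fintype.ofFinite b
  let B : Module.Basis b k (σ → k) := Module.Basis.mk hbli (by
    rw [Subtype.range_coe_subtype]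
    exact hbspan.ge)
  have hcard : Fintype.card b = Fintype.card σ := by
    rw [← Module.finrank_eq_card_basis B, Module.finrank_fintype_fun_eq_card]
  let E : Fin (Fintype.card σ) ≃ b := (Fintype.equivFinOfCardEq hcard).symm
  have hch : ∀ a : b, ∃ l, Full t S P l ∧ (a : σ → k) = S l - S P := fun a => hbs a.2
  choose f hf1 hf2 using hch
  refine ⟨fun a => f (E a), fun a => hf1 _, ?_⟩
  have h1 : (fun a => S (f (E a)) - S P) = (fun a => ((E a : b) : σ → k)) := by
    funext a
    rw [← hf2]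
  rw [h1]
  exact hbli.comp _ E.injective

theorem exists_line (U : Uni t S e) {P0 : ι} {X : Fin (Fintype.card σ) → ι}
    (hX : ∀ a, Full t S P0 (X a)) (hli : LinearIndependent k (fun a => S (X a) - S P0))
    {Y : ι} (hY : Full t S P0 Y) : ∃ a, Y ∈ ln S P0 (X a) := by
  classical
  have hS := U.injective
  by_contra hcon
  push Not at hcon
  have hn : ∀ a b, a ≠ b → X b ∉ ln S P0 (X a) := by
    intro a b hab hmem
    obtain ⟨c, hc⟩ := mem_ln_smul hmem
    have h1 := linearIndependent_iff'.1 hli {a, b} (fun i => if i = a then c else -1) (by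
      rw [Finset.sum_pair hab]
      simp only [if_true, if_neg (Ne.symm hab)]
      rw [hc]
      module) b (by simp)
    simp [Ne.symm hab] at h1
  have hspan : Submodule.span k (Set.range (fun a => S (X a) - S P0)) = ⊤ := by
    apply LinearIndependent.span_eq_top_of_card_eq_finrank' hli
    rw [Fintype.card_fin, Module.finrank_fintype_fun_eq_card]
  have hmem : S Y - S P0 ∈ Submodule.span k (Set.range (fun a => S (X a) - S P0)) := by
    rw [hspan]
    trivial
  obtain ⟨c, hc⟩ := (Submodule.mem_span_range_iff_exists_fun k).1 hmem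
  have hc0 : ∀ a, c a = 0 := by
    intro a
    have h1 : dd S e (X a) P0 (S Y - S P0) = 0 :=
      dd_zero U hY (not_mem_ln_comm hS (hX a).1.symm (hcon a))
    rw [← hc, map_sum, Finset.sum_eq_single a] at h1
    · rw [map_smul, smul_eq_mul] at h1
      exact (mul_eq_zero.1 h1).resolve_right (dd_ne U (hX a))
    · intro b _ hb
      rw [map_smul, dd_zero U (hX b), smul_zero]
      exact hn b a hb
    · simp
  have : S Y - S P0 = 0 := by
    rw [← hc]
    simp [hc0]
  exact hY.1 (hS (sub_eq_zero.1 this).symm)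

open Classical in
theorem geo (ht : 1 ≤ t) (hN : 1 ≤ Fintype.card σ) (U : Uni t S e) [Nonempty ι]
    (hfull : ∀ i j, i ≠ j → Adj S e i j → Full t S i j) :
    ∃ (η : Fin (t + Fintype.card σ) → ((σ → k) →ₗ[k] k)) (b : Fin (t + Fintype.card σ) → k),
      (∀ j, η j ≠ 0) ∧
      ∀ i, Fintype.card σ ≤ (Finset.univ.filter (fun j => η j (S i) = b j)).card := by
  have hS := U.injective
  -- there are at least two points
  have htwo : ∀ P : ι, ∃ Q, Q ≠ P := by
    intro P
    by_contra hcon
    push Not at hcon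
    obtain ⟨l⟩ : Nonempty σ := Fintype.card_pos_iff.1 hN
    have h1 : (X l - C (S P l) : MvPolynomial σ k) = 0 := by
      apply U.eq_zero
      · refine le_trans (totalDegree_sub _ _) ?_
        rw [totalDegree_X, totalDegree_C]
        simpa using ht
      · intro i
        rw [hcon i]
        simp
    have h2 := congrArg (eval (fun m => S P m + 1)) h1
    simp at h2
  obtain ⟨P0⟩ := (inferInstance : Nonempty ι)
  obtain ⟨Q0, hQ0⟩ := htwo P0
  obtain ⟨X, hX, hli⟩ := exists_basis U hfull hQ0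
  let a0 : Fin (Fintype.card σ) := ⟨0, hN⟩
  let J := {a : Fin (Fintype.card σ) // a ≠ a0} ⊕ {l : ι // l ∈ ln S P0 (X a0)}
  have hother : ∀ P : {l : ι // l ∈ ln S P0 (X a0)}, ∃ Y, Y ∈ ln S P0 (X a0) ∧ Y ≠ P.1 := by
    intro P
    by_cases h : P.1 = P0
    · exact ⟨X a0, ln_right _ _ _, by rw [h]; exact (hX a0).1.symm⟩
    · exact ⟨P0, ln_left _ _ _, fun h' => h h'.symm⟩
  choose Y hY1 hY2 using hother
  let pt : J → ι := Sum.elim (fun _ => P0) (fun P => P.1)
  let di : J → ι := Sum.elim (fun a => X a.1) (fun P => Y P)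
  have hfl : ∀ P : {l : ι // l ∈ ln S P0 (X a0)}, Full t S P.1 (Y P) ∧
      ln S P.1 (Y P) = ln S P0 (X a0) := by
    intro P
    by_cases h : P.1 = P0
    · constructor
      · rw [h]
        exact Full.of_mem hS (hX a0) (hY1 P) (by rw [← h]; exact hY2 P)
      · rw [h]
        exact ln_eq hS (hY1 P) (by rw [← h]; exact hY2 P)
    · have h1 : Full t S P.1 P0 := (Full.of_mem hS (hX a0) P.2 h).symm
      have h2 : ln S P.1 P0 = ln S P0 (X a0) := by
        rw [ln_symm]
        exact ln_eq hS P.2 h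
      have h3 : Y P ∈ ln S P.1 P0 := by
        rw [h2]
        exact hY1 P
      exact ⟨Full.of_mem hS h1 h3 (hY2 P), (ln_eq hS h3 (hY2 P)).trans h2⟩
  have hJ : ∀ j : J, Full t S (pt j) (di j) := by
    rintro (a | P)
    · exact hX a.1
    · exact (hfl P).1
  let FF : J → Set (σ → k) := fun j => Hs S e (pt j) (di j)
  -- claim 1
  have hG0 : GG t S e FF P0 := by
    intro Z hZ
    obtain ⟨a, ha⟩ := exists_line U hX hli hZ
    by_cases haa : a = a0
    · refine ⟨Sum.inr ⟨P0, ln_left _ _ _⟩, ?_⟩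
      have h1 := hfl ⟨P0, ln_left _ _ _⟩
      have h2 : Z ∈ ln S P0 (Y ⟨P0, ln_left _ _ _⟩) := by
        rw [h1.2, ← haa]
        exact ha
      exact (Hs_same U hfull h1.1 h2 hZ.1.symm).symm
    · exact ⟨Sum.inl ⟨a, haa⟩, (Hs_same U hfull (hX a) ha hZ.1.symm).symm⟩
  have hG1 : ∀ R ∈ ln S P0 (X a0), GG t S e FF R := by
    intro R hR
    by_cases hRP : R = P0
    · rw [hRP]
      exact hG0
    intro Z hZ
    have h1 := hfl ⟨R, hR⟩
    have h0 : Full t S R P0 := (Full.of_mem hS (hX a0) hR hRP).symm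
    have h0l : ln S R P0 = ln S P0 (X a0) := by
      rw [ln_symm]
      exact ln_eq hS hR hRP
    by_cases hZl : Z ∈ ln S P0 (X a0)
    · refine ⟨Sum.inr ⟨R, hR⟩, ?_⟩
      have h2 : Z ∈ ln S R (Y ⟨R, hR⟩) := by
        rw [h1.2]
        exact hZl
      exact (Hs_same U hfull h1.1 h2 hZ.1.symm).symm
    · obtain ⟨Z', hZ', hh⟩ := Hs_move ht U hfull h0 hZ (by rw [h0l]; exact hZl)
      obtain ⟨j, hj⟩ := hG0 Z' hZ'
      exact ⟨j, by rw [hh, hj]⟩
  have hnice : ∀ P, ∀ Z, (Z = P ∨ Full t S P Z) → GG t S e FF Z := by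
    have := conn U {P | ∀ Z, (Z = P ∨ Full t S P Z) → GG t S e FF Z}
      ⟨P0, nice_step ht U hfull (hX a0) hG1⟩ (by
        intro P hP P' hPP'
        by_cases h : P = P'
        · rw [← h]
          exact hP
        have hf := hfull P P' h hPP'
        apply nice_step ht U hfull hf.symm
        intro R hR
        apply hP
        by_cases hRP : R = P
        · exact Or.inl hRP
        · right
          apply Full.of_mem hS hf _ hRP
          rw [ln_symm]
          exact hR)
    exact this
  have hGall : ∀ P, GG t S e FF P := fun P => hnice P P (Or.inl rfl)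
  -- the index type
  have hcardJ : Fintype.card J = t + Fintype.card σ := by
    have h1 : Fintype.card {l : ι // l ∈ ln S P0 (X a0)} = t + 1 := by
      rw [← Nat.card_eq_fintype_card]
      exact (hX a0).2
    have h2 : Fintype.card {a : Fin (Fintype.card σ) // a ≠ a0} = Fintype.card σ - 1 := by
      rw [Fintype.card_subtype_compl, Fintype.card_fin, Fintype.card_subtype_eq]
    rw [Fintype.card_sum, h1, h2]
    omega
  let E : Fin (t + Fintype.card σ) ≃ J := (Fintype.equivFinOfCardEq hcardJ).symm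
  refine ⟨fun j => dd S e (di (E j)) (pt (E j)),
    fun j => dd S e (di (E j)) (pt (E j)) (S (pt (E j))), ?_, ?_⟩
  · intro j h
    have h' : dd S e (di (E j)) (pt (E j)) = 0 := h
    apply dd_ne U (hJ (E j))
    rw [h']
    rfl
  · intro P
    obtain ⟨Q, hQ⟩ := htwo P
    obtain ⟨Z, hZ, hZli⟩ := exists_basis U hfull hQ
    have hch : ∀ a, ∃ j, Hs S e P (Z a) = FF (E j) := by
      intro a
      obtain ⟨j, hj⟩ := hGall P (Z a) (hZ a)
      exact ⟨E.symm j, by rw [hj, Equiv.apply_symm_apply]⟩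
    choose f hf using hch
    have hn : ∀ a b, a ≠ b → Z b ∉ ln S P (Z a) := by
      intro a b hab hmem
      obtain ⟨c, hc⟩ := mem_ln_smul hmem
      have h1 := linearIndependent_iff'.1 hZli {a, b} (fun i => if i = a then c else -1) (by
        rw [Finset.sum_pair hab]
        simp only [if_true, if_neg (Ne.symm hab)]
        rw [hc]
        module) b (by simp)
      simp [Ne.symm hab] at h1
    have hfinj : Function.Injective f := by
      intro a b hab
      by_contra hne
      have h1 : Hs S e P (Z a) = Hs S e P (Z b) := by rw [hf a, hf b, hab]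
      have h2 : S (Z b) ∈ Hs S e P (Z a) := dd_zero U (hZ b) (hn b a (Ne.symm hne))
      rw [h1] at h2
      exact dd_ne U (hZ b) h2
    have hle : (Finset.univ.image f).card ≤ (Finset.univ.filter (fun j =>
        dd S e (di (E j)) (pt (E j)) (S P) = dd S e (di (E j)) (pt (E j)) (S (pt (E j))))).card := by
      apply Finset.card_le_card
      intro j hj
      rw [Finset.mem_image] at hj
      obtain ⟨a, -, rfl⟩ := hj
      rw [Finset.mem_filter]
      refine ⟨Finset.mem_univ _, ?_⟩
      have h1 : S P ∈ Hs S e P (Z a) := by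
        show dd S e (Z a) P (S P - S P) = 0
        rw [sub_self, map_zero]
      rw [hf a] at h1
      have h2 : dd S e (di (E (f a))) (pt (E (f a))) (S P - S (pt (E (f a)))) = 0 := h1
      rw [map_sub, sub_eq_zero] at h2
      exact h2
    rw [Finset.card_image_of_injective _ hfinj, Finset.card_univ, Fintype.card_fin] at hle
    exact hle

end

end Pool.Agent.Lib.StarN
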