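import Mathlib
import Pool.Agent.Lib.StarN.Affine
import Pool.Agent.Lib.StarN.Geo
import Pool.Agent.Lib.Chud.Homog
import Pool.Agent.Lib.P5c592f.Q1

set_option autoImplicit false

/-!
# The projective form: equality forces a star configuration
-/

namespace Pool.Agent.Lib.StarN

open MvPolynomial Pool.Agent.Lib.Chud Pool.Agent.Lib.P5c592f

section

variable {k : Type*} [Field k] {n : ℕ}

/-- the affine point attached to a vector after a change of coordinates -/
def apt (c : Fin n → k) (v : Fin (n + 1) → k) : Fin n → k :=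
  fun j => (pt c v 0)⁻¹ * pt c v j.succ

theorem mem_iff {c : Fin n → k} {v : Fin (n + 1) → k} (hc : pt c v 0 ≠ 0) {e : ℕ}
    {G : MvPolynomial (Fin (n + 1)) k} (hG : G.IsHomogeneous e) (M : ℕ) :
    G ∈ Iv v ^ M ↔ OrdGE (apt c v) M (dh k n (Lc c G)) := by
  have hIv : Iv (fun l => (pt c v 0)⁻¹ * pt c v l) = Iv (pt c v) := Iv_smul (inv_ne_zero hc) _
  have hw0 : (fun l => (pt c v 0)⁻¹ * pt c v l) 0 = 1 := inv_mul_cancel₀ hc
  have hw1 : (fun l => (pt c v 0)⁻¹ * pt c v l) 0 ≠ 0 := by rw [hw0]; exact one_ne_zero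
  have h1 : Lc c G ∈ Iv (pt c v) ^ M ↔ OrdGE (apt c v) M (dh k n (Lc c G)) := by
    rw [← hIv, mem_Iv_pow_iff_I hw1 (Lc_hom c hG), ordGE_iff, phiI_eq _ hw0]
    rfl
  rw [← h1]
  constructor
  · exact Lc_mem
  · intro h
    have h2 := Lc_mem (c := fun j => - c j) h
    rwa [pt_pt, Lc_Lc] at h2

theorem eval_iff {c : Fin n → k} {v : Fin (n + 1) → k} (hc : pt c v 0 ≠ 0) {e : ℕ}
    {G : MvPolynomial (Fin (n + 1)) k} (hG : G.IsHomogeneous e) :
    eval (apt c v) (dh k n (Lc c G)) = 0 ↔ eval v G = 0 := by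
  have hv : v ≠ 0 := by
    rintro rfl
    apply hc
    simp [pt]
  rw [← ordGE_one_iff, ← mem_iff hc hG 1, mem_Iv_pow_iff hv hG, Nat.cast_one,
    one_le_lord_phi_iff]

theorem unis_zero {t : ℕ} {p : Fin ((t + n).choose n) → (Fin (n + 1) → k)}
    {f : Fin ((t + n).choose n) → MvPolynomial (Fin (n + 1)) k}
    (hf : ∀ i, (f i).IsHomogeneous t) (h1 : ∀ i, eval (p i) (f i) = 1)
    (h0 : ∀ i j, i ≠ j → eval (p j) (f i) = 0) {G : MvPolynomial (Fin (n + 1)) k}
    (hG : G.IsHomogeneous t) (hv : ∀ i, eval (p i) G = 0) : G = 0 := by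
  classical
  let V := homogeneousSubmodule (Fin (n + 1)) k t
  let E : V →ₗ[k] (Fin ((t + n).choose n) → k) := LinearMap.pi (fun j =>
    ((MvPolynomial.aeval (R := k) (S₁ := k) (p j)).toLinearMap).domRestrict V)
  have hE : ∀ (G : V) j, E G j = eval (p j) G.1 := by
    intro G j
    show MvPolynomial.aeval (p j) G.1 = _
    rw [MvPolynomial.aeval_eq_eval]
  have hsurj : Function.Surjective E := by
    intro y
    refine ⟨∑ i, y i • ⟨f i, hf i⟩, ?_⟩
    funext j
    rw [hE]
    have h2 : ((∑ i, y i • (⟨f i, hf i⟩ : V) : V) : MvPolynomial (Fin (n + 1)) k) =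
        ∑ i, y i • f i := by
      rw [AddSubmonoidClass.coe_finsetSum]
      rfl
    rw [h2, map_sum, Finset.sum_eq_single j]
    · rw [smul_eval, h1, mul_one]
    · intro b _ hb
      rw [smul_eval, h0 b j hb, mul_zero]
    · simp
  have hinj : Function.Injective E := by
    have h3 : Module.finrank k V = Module.finrank k (Fin ((t + n).choose n) → k) := by
      rw [Module.finrank_fintype_fun_eq_card, Fintype.card_fin]
      exact finrank_homogeneousSubmodule k n t
    exact (LinearMap.injective_iff_surjective_of_finrank_eq_finrank h3).2 hsurj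
  have h4 : (⟨G, hG⟩ : V) = 0 := by
    apply hinj
    rw [map_zero]
    funext j
    rw [hE]
    exact hv j
  exact congrArg Subtype.val h4

theorem starN [IsAlgClosed k] (hn : 1 ≤ n) {S : Set (Fin (n + 1) → k)} (hSf : S.Finite)
    (hS0 : ∀ v ∈ S, v ≠ 0) {d m t : ℕ} (hH : HH S t) (ht : 1 ≤ t) (hm : 1 ≤ m)
    {F : MvPolynomial (Fin (n + 1)) k} (hF : F.IsHomogeneous d) (h0 : F ≠ 0)
    (hord : ∀ v ∈ S, F ∈ Iv v ^ m) (heq : n * d = m * (t + n)) :
    ∃ c : Fin (t + n) → ((Fin (n + 1) → k) →ₗ[k] k), Star n S (t + n) c := by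
  classical
  have hfin : Finite S := hSf
  obtain ⟨c, hc⟩ := exists_generic (fun v : S => (v : Fin (n + 1) → k)) (fun v => hS0 v.1 v.2)
  have hc' : ∀ v ∈ S, pt c v 0 ≠ 0 := fun v hv => hc ⟨v, hv⟩
  obtain ⟨p, f, hpS, hf, hf1, hf0⟩ := hH.exists_unisolvent
  have hne : Nonempty (Fin ((t + n).choose n)) :=
    ⟨⟨0, Nat.choose_pos (by omega)⟩⟩
  have hnσ : Nonempty (Fin n) := ⟨⟨0, by omega⟩⟩
  let P : Fin ((t + n).choose n) → Fin n → k := fun i => apt c (p i)
  let g : Fin ((t + n).choose n) → MvPolynomial (Fin n) k := fun i => dh k n (Lc c (f i))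
  have hg1 : ∀ i, eval (P i) (g i) ≠ 0 := by
    intro i h
    have h1 := (eval_iff (hc' _ (hpS i)) (hf i)).1 h
    rw [hf1] at h1
    exact one_ne_zero h1
  have hg0 : ∀ i j, i ≠ j → eval (P j) (g i) = 0 := fun i j hij =>
    (eval_iff (hc' _ (hpS j)) (hf i)).2 (hf0 i j hij)
  have hgd : ∀ i, (g i).totalDegree ≤ t := fun i =>
    (totalDegree_dh _).trans (Lc_hom c (hf i)).totalDegree_le
  let E : Fin ((t + n).choose n) → MvPolynomial (Fin n) k := fun i => C (eval (P i) (g i))⁻¹ * g i
  have hEd : ∀ i, (E i).totalDegree ≤ t := by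
    intro i
    refine (totalDegree_mul _ _).trans ?_
    rw [totalDegree_C, zero_add]
    exact hgd i
  have hEdual : ∀ i j, eval (P j) (E i) = if i = j then 1 else 0 := by
    intro i j
    simp only [E, map_mul, eval_C]
    by_cases hij : i = j
    · rw [if_pos hij, ← hij]
      exact inv_mul_cancel₀ (hg1 i)
    · rw [if_neg hij, hg0 i j hij, mul_zero]
  have U : Uni t P E := by
    refine ⟨hEd, hEdual, ?_⟩
    intro a ha
    rw [← sub_eq_zero]
    set q := monomial a (1 : k) - ∑ i, C (eval (P i) (monomial a (1 : k))) * E i with hq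
    have hqd : q.totalDegree ≤ t := by
      refine (totalDegree_sub _ _).trans (max_le ?_ ?_)
      · rw [totalDegree_monomial _ one_ne_zero]
        exact ha
      · apply totalDegree_finsetSum_le
        intro i _
        refine (totalDegree_mul _ _).trans ?_
        rw [totalDegree_C, zero_add]
        exact hEd i
    have hqv : ∀ j, eval (P j) q = 0 := by
      intro j
      rw [hq, map_sub, map_sum, Finset.sum_eq_single j]
      · rw [map_mul, eval_C, hEdual, if_pos rfl, mul_one, sub_self]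
      · intro b _ hb
        rw [map_mul, hEdual, if_neg hb, mul_zero]
      · simp
    obtain ⟨G, hG, hGq⟩ := exists_homog hqd
    have h1 : Lc (fun j => - c j) G = 0 := by
      apply unis_zero hf hf1 hf0 (Lc_hom _ hG)
      intro i
      rw [← eval_iff (hc' _ (hpS i)) (Lc_hom _ hG)]
      have h2 : Lc c (Lc (fun j => - c j) G) = G := by
        have := Lc_Lc (fun j => - c j) G
        simpa using this
      rw [h2, hGq]
      exact hqv i
    have h2 : Lc c (Lc (fun j => - c j) G) = G := by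
      have := Lc_Lc (fun j => - c j) G
      simpa using this
    rw [h1, map_zero] at h2
    rw [← hGq, ← h2, map_zero]
  -- the form
  set F1 := dh k n (Lc c (F ^ n)) with hF1
  have hFn : (F ^ n).IsHomogeneous (d * n) := hF.pow n
  have hF10 : F1 ≠ 0 := by
    intro h
    obtain ⟨i⟩ := hne
    have h1 : F ^ n ∈ Iv (p i) ^ (d * n + 1) := by
      rw [mem_iff (hc' _ (hpS i)) hFn, ← hF1, h]
      intro γ _
      simp
    have h2 := (mem_Iv_pow_iff (hS0 _ (hpS i)) hFn).1 h1
    have h3 := lord_phi_le (hS0 _ (hpS i)) hFn (pow_ne_zero _ h0)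
    have h4 := h2.trans h3
    have h5 : d * n + 1 ≤ d * n := by exact_mod_cast h4
    omega
  have hF1d : F1.totalDegree ≤ m * (t + Fintype.card (Fin n)) := by
    rw [Fintype.card_fin, ← heq, mul_comm]
    exact (totalDegree_dh _).trans (Lc_hom c hFn).totalDegree_le
  have hF1o : ∀ v ∈ S, OrdGE (apt c v) (m * Fintype.card (Fin n)) F1 := by
    intro v hv
    rw [Fintype.card_fin, ← mem_iff (hc' v hv) hFn, pow_mul]
    exact Ideal.pow_mem_pow (hord v hv) n
  obtain ⟨hA, hB⟩ := affine_main ht U hm hF10 hF1d (fun i => hF1o _ (hpS i))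
  have hgeo := geo ht (by rw [Fintype.card_fin]; exact hn) U hA
  rw [Fintype.card_fin] at hgeo
  obtain ⟨η, b, hη0, hη⟩ := hgeo
  -- the linear forms
  let lf : Fin (t + n) → ((Fin (n + 1) → k) →ₗ[k] k) := fun j =>
    (η j).comp (LinearMap.pi (fun l : Fin n => LinearMap.proj l.succ)) -
      b j • (LinearMap.proj 0 - ∑ l : Fin n, c l • LinearMap.proj l.succ)
  have hlf : ∀ j v, lf j v = η j (fun l => v l.succ) - b j * pt c v 0 := by
    intro j v
    simp only [lf, LinearMap.sub_apply, LinearMap.comp_apply, LinearMap.smul_apply,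
      LinearMap.sum_apply, LinearMap.proj_apply, smul_eq_mul, pt, Fin.cases_zero]
    rfl
  have hlf0 : ∀ j, lf j ≠ 0 := by
    intro j h
    apply hη0 j
    refine LinearMap.ext fun x => ?_
    have h1 := congrArg (fun φ : (Fin (n + 1) → k) →ₗ[k] k =>
      φ (Fin.cases (∑ l, c l * x l) x)) h
    simp only [LinearMap.zero_apply] at h1
    rw [hlf] at h1
    simpa [pt] using h1
  have hpt : ∀ v ∈ S, ∀ j, (lf j v = 0 ↔ η j (apt c v) = b j) := by
    intro v hv j
    have h1 : apt c v = (pt c v 0)⁻¹ • (fun l => v l.succ) := by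
      funext l
      simp [apt, pt]
    rw [hlf, h1, map_smul, smul_eq_mul, sub_eq_zero, inv_mul_eq_iff_eq_mul₀ (hc' v hv),
      mul_comm (b j)]
  have hcard : ∀ v ∈ S, n ≤ (Finset.univ.filter (fun j => lf j v = 0)).card := by
    intro v hv
    obtain ⟨i, hi⟩ := hB (apt c v) (hF1o v hv)
    have h1 : (Finset.univ.filter (fun j => lf j v = 0)) =
        Finset.univ.filter (fun j => η j (P i) = b j) := by
      apply Finset.filter_congr
      intro j _
      rw [hpt v hv, hi]
    rw [h1]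
    exact hη i
  have hnc : ∀ v : Fin (n + 1) → k, {j : Fin (t + n) | lf j v = 0}.ncard =
      (Finset.univ.filter (fun j => lf j v = 0)).card := by
    intro v
    rw [← Set.ncard_coe_finset]
    congr 1
    ext j
    simp
  obtain ⟨a, rfl⟩ : ∃ a, t = a + 1 := ⟨t - 1, by omega⟩
  have h := comb_lemma lf a Finset.univ S (fun j _ => hlf0 j) (by simp; omega)
    (fun v hv => ⟨hS0 v hv, hcard v hv⟩) hH
  refine ⟨lf, fun T hT => h.1 T (Finset.subset_univ T) hT, ?_, ?_⟩
  · intro v hv
    rw [hnc]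
    exact hcard v hv
  · intro v hv hv2
    rw [hnc] at hv2
    exact h.2 v hv hv2

end

end Pool.Agent.Lib.StarN
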